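import Pool.Agent.Lib_MP_b9fedf_qy.DefsR

/-! Reduced sections of projective space are given by squarefree forms. -/

set_option autoImplicit false

namespace Pool.Agent.YB
open MvPolynomial Pool.Agent.QY

theorem squarefree_of_redOn_bot {n : ℕ} (P : MvPolynomial (Fin (n + 1)) ℂ)
    (hP : RedOn (⊥ : Ideal (MvPolynomial (Fin (n + 1)) ℂ)) P) : Squarefree P := by
  obtain ⟨hP0, hP⟩ := hP
  rw [Ideal.mem_bot] at hP0
  rw [bot_sup_eq] at hP
  rw [squarefree_iff_no_irreducibles hP0]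
  intro π hπ hdvd
  have hπp : Prime π := hπ.prime
  obtain ⟨𝔓, h𝔓, h𝔓π⟩ : ∃ 𝔓 ∈ (Ideal.span {P}).minimalPrimes, 𝔓 ≤ Ideal.span {π} := by
    have : (Ideal.span {π}).IsPrime := (Ideal.span_singleton_prime hπp.ne_zero).mpr hπp
    refine Ideal.exists_minimalPrimes_le ?_
    rw [Ideal.span_singleton_le_iff_mem, Ideal.mem_span_singleton]
    exact (dvd_mul_right π π).trans hdvd
  have hprime : 𝔓.IsPrime := h𝔓.1.1
  have hP𝔓 : P ∈ 𝔓 := (Ideal.span_singleton_le_iff_mem _).mp h𝔓.1.2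
  have hπ𝔓 : π ∈ 𝔓 := by
    by_contra hcon
    -- some prime factor of `P` lies in `𝔓`, and is divisible by `π`
    obtain ⟨π', hπ'𝔓, hπ'⟩ : ∃ π' ∈ 𝔓, Prime π' := by
      obtain ⟨f, hf1, hf2⟩ := UniqueFactorizationMonoid.exists_prime_factors P hP0
      obtain ⟨u, hu⟩ := hf2
      have h1 : f.prod ∈ 𝔓 := by
        have h2 : f.prod * u ∈ 𝔓 := by rw [hu]; exact hP𝔓
        exact (hprime.mem_or_mem h2).resolve_right fun h3 =>
          hprime.ne_top (Ideal.eq_top_of_isUnit_mem _ h3 u.isUnit)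
      obtain ⟨π', hπ'f, hπ'𝔓⟩ := (Ideal.IsPrime.multiset_prod_mem_iff_exists_mem hprime f).mp h1
      exact ⟨π', hπ'𝔓, hf1 π' hπ'f⟩
    have h1 : π ∣ π' := Ideal.mem_span_singleton.1 (h𝔓π hπ'𝔓)
    obtain ⟨c, hc⟩ := (hπp.associated_of_dvd hπ' h1).symm
    apply hcon
    rw [← hc]
    exact 𝔓.mul_mem_right _ hπ'𝔓
  obtain ⟨s, hs, hs'⟩ := hP 𝔓 h𝔓
  have h1 := hs' π hπ𝔓
  rw [Ideal.mem_span_singleton] at h1
  have h2 : π * π ∣ s * π := hdvd.trans h1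
  have h3 : π ∣ s := (mul_dvd_mul_iff_right hπp.ne_zero).1 h2
  exact hs (𝔓.mem_of_dvd h3 hπ𝔓)

end Pool.Agent.YB
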