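import Pool.Agent.Lib_MP_1209e6_yb.YOrders
import Pool.Agent.Lib_MP_b9fedf_lo.DefsRp
import Pool.Agent.Lib_MP_b9fedf_lo.RamArc
import Pool.Agent.Lib_MP_b9fedf_lo.AvgConst
import Pool.Agent.Lib_MP_b9fedf_lo.Gcd
import Pool.Agent.Lib_MP_1209e6_mh.Final

/-! Piece YB-10: varieties ramified over many sections of a variety are not Brody-special. -/

set_option autoImplicit false

namespace Pool.Agent.YB
open MvPolynomial Pool.Agent.QY Pool.Agent.Campana Pool.Agent.LO

/-- common factor of a homogeneous form -/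
private lemma aeval_mul_yb {A : Type} [CommRing A] [Algebra ℂ A] {n : ℕ} (u : A) (g : Fin (n + 1) → A) {d : ℕ}
    (Q : MvPolynomial (Fin (n + 1)) ℂ) (hQ : Q.IsHomogeneous d) :
    aeval (fun i => u * g i) Q = u ^ d * aeval g Q := by
  rw [aeval_def, aeval_def, eval₂_eq', eval₂_eq', Finset.mul_sum]
  refine Finset.sum_congr rfl fun m hm => ?_
  have h1 : ∑ i, m i = d := by
    have h2 := hQ (mem_support_iff.1 hm)
    rw [Finsupp.weight_apply, Finsupp.sum_fintype _ _ (by simp)] at h2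
    simpa using h2
  rw [← h1, ← Finset.prod_pow_eq_pow_sum]
  simp only [mul_pow, Finset.prod_mul_distrib]
  ring

/-- PIECE YB-10. As `not_brody_avg` (Lib_MP_b9fedf_lo/NotBrodyAvg.lean), with `curve_orders_y` in place of
`curve_orders` (`X i₀ ∉ q` for some `i₀`, `tr_one`; coordinates with `X i ∈ q` are zero: `F i = 0`), `ρ = M / (M + 1)`, and with
`ratio_count` (RamArc.lean) for `hR`: the members with `o P ≠ 0` vanish at the point `g z ≠ 0` of `V(q)`
(`g` lies in `V(q)`: components; `hpt`), and if all `o P ≤ 1` then, as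
`o P = e' * (v (aeval y P) - deg P * c₀)`, `e' ≥ 1`, `c₀` the least `v (y i)` over the nonzero `y i`, `hT` at the place `O` gives
`o P = 0`.  At the end `g` is constant up to factors: with `l` such that `g 0 l ≠ 0` the linear forms
`g 0 l * X j - g 0 j * X l` vanish on `F`, so lie in `q`; this contradicts `tr_lin` (with `a = X l`, and `X l ∉ q` by `tr_one`). -/
theorem not_brody_y {n M : ℕ} {η : ℝ} (hη : (M : ℝ) / (M + 1) < 1 - η)
    {q : Ideal (MvPolynomial (Fin (n + 1)) ℂ)} (hq : q.IsPrime) (hqh : HomI q) (htr : Tr q 2)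
    (D : Finset (MvPolynomial (Fin (n + 1)) ℂ)) (hDn : D.Nonempty)
    (hD : ∀ P ∈ D, 1 ≤ P.totalDegree ∧ P.IsHomogeneous P.totalDegree ∧ P ∉ q)
    (hpt : ∀ x : Fin (n + 1) → ℂ, x ≠ 0 → (∀ g ∈ q, eval x g = 0) → ∀ A ⊆ D,
      (∀ P ∈ A, eval x P = 0) → A.card ≤ M) {d : ℕ}
    (Z : MvPolynomial (Fin (n + 1)) ℂ) (hZq : Z ∉ q) (hZh : Z.IsHomogeneous d)
    (hZ : ∀ P ∈ D, P ∣ Z) (hL : LevelOne η q D Z)
    {m : ℕ} (P : Ideal (MvPolynomial (Fin (m + 1)) ℂ)) [P.IsPrime] (hP : IsVariety P)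
    (y : Fin (n + 1) → FunField P)
    (hyq : ∀ (d : ℕ) (Q : MvPolynomial (Fin (n + 1)) ℂ), Q.IsHomogeneous d →
      (aeval y Q = 0 ↔ Q ∈ q)) (hT : RamifiedPl y D) : ¬ BrodySpecial P := by
  classical
  rintro ⟨f, hf, -, hfP, hdense⟩
  obtain ⟨j₀, hj₀⟩ := hP.2.2
  obtain ⟨ψ, -⟩ := exists_pullback P j₀ hj₀ f hf hfP hdense
  obtain ⟨F, hF0, hF⟩ := curve_orders_y ψ htr y hyq
  obtain ⟨i₁, hi₁⟩ : ∃ i, (X i : MvPolynomial (Fin (n + 1)) ℂ) ∉ q := by
    obtain ⟨i, hi⟩ := tr_lin htr 0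
    refine ⟨i, fun h => hi 0 ?_⟩
    rwa [mul_zero, sub_zero]
  have hFi₁ : F i₁ ≠ 0 := by
    intro h0
    refine hi₁ ((hF0 1 (X i₁) (isHomogeneous_X ℂ i₁)).1 ?_)
    rw [aeval_X]
    exact h0
  obtain ⟨z₁, hz₁⟩ := (SQ.Ent.ne_zero_iff (F i₁)).1 hFi₁
  obtain ⟨u, g, hu, ⟨z₂, hz₂⟩, hg, hg0, hug⟩ := exists_gcd (fun i => (F i).1) (fun i => (F i).2) ⟨i₁, z₁, hz₁⟩
  -- the entire functions
  obtain ⟨uE, huE⟩ : ∃ uE : SQ.Ent, ∀ z, uE.1 z = u z := ⟨⟨u, hu⟩, fun _ => rfl⟩
  obtain ⟨gE, hgE⟩ : ∃ gE : Fin (n + 1) → SQ.Ent, ∀ i z, (gE i).1 z = g z i :=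
    ⟨fun i => ⟨fun z => g z i, fun z => (differentiableAt_pi.1 (hg z)) i⟩, fun _ _ => rfl⟩
  have hFg : F = fun i => uE * gE i := by
    funext i
    refine SQ.Ent.ext' fun z => ?_
    show (F i).1 z = uE.1 z * (gE i).1 z
    rw [huE, hgE]
    exact hug z i
  have huE0 : uE ≠ 0 := (SQ.Ent.ne_zero_iff uE).2 ⟨z₂, by rw [huE]; exact hz₂⟩
  have hQF : ∀ (k : ℕ) (Q : MvPolynomial (Fin (n + 1)) ℂ), Q.IsHomogeneous k →
      aeval F Q = uE ^ k * aeval gE Q := by
    intro k Q hQ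
    rw [hFg]
    exact aeval_mul_yb uE gE Q hQ
  have hQg : ∀ (k : ℕ) (Q : MvPolynomial (Fin (n + 1)) ℂ), Q.IsHomogeneous k →
      (aeval gE Q = 0 ↔ Q ∈ q) := by
    intro k Q hQ
    rw [← hF0 k Q hQ, hQF k Q hQ]
    constructor
    · intro h0
      rw [h0, mul_zero]
    · intro h0
      exact (mul_eq_zero.1 h0).resolve_left (pow_ne_zero k huE0)
  have hval : ∀ (Q : MvPolynomial (Fin (n + 1)) ℂ) (z : ℂ), (aeval gE Q).1 z = eval (g z) Q := by
    intro Q z
    rw [SQ.ent_aeval]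
    congr 2
    funext k
    exact hgE k z
  have hgq : ∀ Q ∈ q, ∀ z, eval (g z) Q = 0 := by
    intro Q hQ z
    conv_lhs => rw [← sum_homogeneousComponent Q]
    rw [map_sum]
    refine Finset.sum_eq_zero fun k _ => ?_
    have h1 := (hQg k (homogeneousComponent k Q) (homogeneousComponent_isHomogeneous k Q)).2
      (hqh Q hQ k)
    rw [← hval, h1]
    rfl
  -- orders
  have hpow : ∀ (z : ℂ) (k : ℕ), eord z (uE ^ k) = k * eord z uE := by
    intro z k
    induction k with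
    | zero =>
      have h1 := eord_const z 1 one_ne_zero
      rw [map_one] at h1
      rw [pow_zero, h1, zero_mul]
    | succ k ih =>
      rw [pow_succ, eord_mul z _ _ (pow_ne_zero k huE0) huE0, ih]
      ring
  have hordg : ∀ (z : ℂ) (k : ℕ) (Q : MvPolynomial (Fin (n + 1)) ℂ), Q.IsHomogeneous k → Q ∉ q →
      eord z (aeval F Q) = k * eord z uE + eord z (aeval gE Q) := by
    intro z k Q hQ hQ0
    rw [hQF k Q hQ, eord_mul z _ _ (pow_ne_zero k huE0) (fun h0 => hQ0 ((hQg k Q hQ).1 h0)), hpow]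
  have hR : ∀ z, ∀ o : MvPolynomial (Fin (n + 1)) ℂ → ℕ,
      (∀ P ∈ D, analyticOrderAt (fun ζ => eval (g ζ) P) z = o P) →
      ((D.filter fun P => o P ≠ 0).card : ℝ) ≤ (M : ℝ) / (M + 1) * ∑ P ∈ D, (o P : ℝ) := by
    intro z o ho
    obtain ⟨O, hO, e', v, c, he', hv, hvQ⟩ := hF z
    have key : ∀ (k : ℕ) (Q : MvPolynomial (Fin (n + 1)) ℂ), Q.IsHomogeneous k → Q ∉ q →
        (eord z (aeval gE Q) : ℤ) = e' * v (aeval y Q) + k * (c - eord z uE) := by
      intro k Q hQ hQ0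
      have h1 := hvQ k Q hQ hQ0
      rw [hordg z k Q hQ hQ0] at h1
      push_cast at h1
      linear_combination h1
    have keyX : ∀ i, (X i : MvPolynomial (Fin (n + 1)) ℂ) ∉ q →
        (eord z (gE i) : ℤ) = e' * v (y i) + (c - eord z uE) := by
      intro i hi
      have h1 := key 1 (X i) (isHomogeneous_X ℂ i) hi
      rw [aeval_X, aeval_X, Nat.cast_one, one_mul] at h1
      exact h1
    obtain ⟨i₀, hi₀⟩ : ∃ i, g z i ≠ 0 := by
      by_contra hcon
      push Not at hcon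
      exact hg0 z (funext hcon)
    have hXi₀ : (X i₀ : MvPolynomial (Fin (n + 1)) ℂ) ∉ q := by
      intro h
      have h1 := hgq _ h z
      rw [eval_X] at h1
      exact hi₀ h1
    have hyX : ∀ i, y i ≠ 0 ↔ (X i : MvPolynomial (Fin (n + 1)) ℂ) ∉ q := by
      intro i
      have h1 := hyq 1 (X i) (isHomogeneous_X ℂ i)
      rw [aeval_X] at h1
      exact not_congr h1
    have h0 : eord z (gE i₀) = 0 := by
      have h1 : analyticOrderAt (gE i₀).1 z = 0 := by
        rw [analyticOrderAt_eq_zero]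
        right
        rw [hgE]
        exact hi₀
      unfold eord analyticOrderNatAt
      rw [h1]
      rfl
    have hc : c - eord z uE = - (e' * v (y i₀)) := by
      have h1 := keyX i₀ hXi₀
      rw [h0] at h1
      push_cast at h1
      linear_combination -h1
    have hmin : ∀ i, y i ≠ 0 → v (y i₀) ≤ v (y i) := by
      intro i hi
      have h1 := keyX i ((hyX i).1 hi)
      rw [hc] at h1
      have h2 : (0 : ℤ) ≤ e' * (v (y i) - v (y i₀)) := by
        have h3 : (0 : ℤ) ≤ (eord z (gE i) : ℤ) := by positivity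
        rw [h1] at h3
        linarith
      by_contra hcon
      push Not at hcon
      have h3 : v (y i) - v (y i₀) < 0 := by linarith
      have h4 : e' * (v (y i) - v (y i₀)) < 0 := mul_neg_of_pos_of_neg (by omega) h3
      linarith
    have hoP : ∀ Q ∈ D, (o Q : ℤ) = e' * (v (aeval y Q) - Q.totalDegree * v (y i₀)) := by
      intro Q hQ
      have h1 := key Q.totalDegree Q (hD Q hQ).2.1 (hD Q hQ).2.2
      have h2 := eord_cast z _ (fun h0 => (hD Q hQ).2.2 ((hQg _ Q (hD Q hQ).2.1).1 h0))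
      have h3 : (aeval gE Q).1 = fun ζ => eval (g ζ) Q := funext fun ζ => hval Q ζ
      rw [h3, ho Q hQ] at h2
      have h4 : eord z (aeval gE Q) = o Q := by exact_mod_cast h2
      rw [h4, hc] at h1
      rw [h1]
      ring
    refine ratio_count D o ?_ ?_
    · refine hpt (g z) (hg0 z) (fun Q hQ => hgq Q hQ z) _ (Finset.filter_subset _ _) ?_
      intro Q hQ
      rw [Finset.mem_filter] at hQ
      by_contra hne
      apply hQ.2
      have h1 : analyticOrderAt (fun ζ => eval (g ζ) Q) z = 0 := by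
        rw [analyticOrderAt_eq_zero]
        right
        exact hne
      rw [ho Q hQ.1] at h1
      exact_mod_cast h1
    · intro hle Q hQ
      have h1 := hT O hO v hv (v (y i₀)) hmin ⟨i₀, (hyX i₀).2 hXi₀, rfl⟩ (by
        intro Q' hQ'
        have h2 := hoP Q' hQ'
        have h3 := hle Q' hQ'
        by_contra hcon
        push Not at hcon
        have h4 : 2 ≤ v (aeval y Q') - Q'.totalDegree * v (y i₀) := by linarith
        have h5 : 2 ≤ e' * (v (aeval y Q') - Q'.totalDegree * v (y i₀)) := by nlinarith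
        rw [← h2] at h5
        omega) Q hQ
      have h2 := hoP Q hQ
      have h3 : v (aeval y Q) - Q.totalDegree * v (y i₀) ≤ 0 := by linarith
      have h4 : e' * (v (aeval y Q) - Q.totalDegree * v (y i₀)) ≤ 0 :=
        mul_nonpos_of_nonneg_of_nonpos (by omega) h3
      omega
  have hconst := avg_const hη (by positivity) q D hDn Z (fun P hP => ⟨(hD P hP).1, (hD P hP).2.1⟩)
    hZ hL g hg hg0 hgq (by
    obtain ⟨z, hz⟩ := (SQ.Ent.ne_zero_iff (aeval gE Z)).1 (fun h0 => hZq ((hQg d Z hZh).1 h0))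
    exact ⟨z, by rw [← hval]; exact hz⟩) hR
  -- the linear relations
  obtain ⟨l, hl⟩ : ∃ i, g 0 i ≠ 0 := by
    by_contra hcon
    push Not at hcon
    exact hg0 0 (funext hcon)
  obtain ⟨j, hj⟩ := tr_lin htr (X l)
  refine hj (g 0 j / g 0 l) ?_
  have hQh : (X j - C (g 0 j / g 0 l) * X l : MvPolynomial (Fin (n + 1)) ℂ).IsHomogeneous 1 := by
    refine IsHomogeneous.sub (isHomogeneous_X ℂ j) ?_
    simpa using (isHomogeneous_C (Fin (n + 1)) (g 0 j / g 0 l)).mul (isHomogeneous_X ℂ l)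
  refine (hQg 1 _ hQh).1 (SQ.Ent.ext' fun z => ?_)
  rw [hval]
  obtain ⟨c, hc⟩ := hconst 0 z
  rw [hc]
  simp only [map_sub, map_mul, eval_C, eval_X, Pi.smul_apply, smul_eq_mul]
  show _ = (0 : ℂ)
  field_simp
  ring

end Pool.Agent.YB
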