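import Pool.Agent.Lib_MP_1209e6_yb.YCore
import Pool.Agent.Lib_MP_1209e6_yb.YBrody
import Pool.Agent.Lib_MP_b9fedf_lo.LoMixed
import Pool.Agent.Lib_MP_b9fedf_qy.ManyY

/-! Varieties which are ramified over many sections of a variety. -/

set_option autoImplicit false

namespace Pool.Agent.YB
open MvPolynomial Pool.Agent.QY Pool.Agent.Campana Pool.Agent.LO

/-- two members of the same degree -/
theorem tr_two_of_card {n e : ℕ} {q : Ideal (MvPolynomial (Fin (n + 1)) ℂ)} (hq : q.IsPrime)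
    (hqh : HomI q) (D : Finset (MvPolynomial (Fin (n + 1)) ℂ))
    (hD : ∀ P ∈ D, 1 ≤ P.totalDegree ∧ P.totalDegree ≤ e ∧ P.IsHomogeneous P.totalDegree ∧ P ∉ q)
    (hD' : ∀ P ∈ D, ∀ P' ∈ D, ∀ c : ℂ, P' - C c * P ∈ q → P' = P) (hcard : e < D.card) :
    Tr q 2 := by
  classical
  obtain ⟨P, hP, P', hP', hne, heq⟩ := Finset.exists_ne_map_eq_of_card_lt_of_maps_to
    (s := D) (t := Finset.Icc 1 e) (f := fun P => P.totalDegree)
    (by rw [Nat.card_Icc]; omega) (fun P hP => Finset.mem_coe.2 (Finset.mem_Icc.2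
      ⟨(hD P hP).1, (hD P hP).2.1⟩))
  refine tr_two_forms hq hqh P P' (hD P hP).2.2.1 ?_ (hD P hP).2.2.2 ?_
  · have h1 := (hD P' hP').2.2.1
    have h2 : P.totalDegree = P'.totalDegree := heq
    rw [h2]
    exact h1
  · intro c hc
    exact hne (hD' P hP P' hP' c hc).symm

theorem ramified_special_y (n e M : ℕ) (q : Ideal (MvPolynomial (Fin (n + 1)) ℂ)) (hq : q.IsPrime)
    (hqh : HomI q) : ∃ N : ℕ,
    ∀ D : Finset (MvPolynomial (Fin (n + 1)) ℂ),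
    (∀ Q ∈ D, 1 ≤ Q.totalDegree ∧ Q.totalDegree ≤ e ∧ Q.IsHomogeneous Q.totalDegree ∧
      RedOn q Q) →
    (∀ Q ∈ D, ∀ Q' ∈ D, ∀ c : ℂ, Q' - C c * Q ∈ q → Q' = Q) →
    (∀ x : Fin (n + 1) → ℂ, x ≠ 0 → (∀ g ∈ q, eval x g = 0) → ∀ A ⊆ D,
      (∀ Q ∈ A, eval x Q = 0) → A.card ≤ M) → N < D.card →
    ∀ (m : ℕ) (P : Ideal (MvPolynomial (Fin (m + 1)) ℂ)) [P.IsPrime], IsVariety P →
    ∀ y : Fin (n + 1) → FunField P,
      (∀ (d : ℕ) (Q : MvPolynomial (Fin (n + 1)) ℂ), Q.IsHomogeneous d →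
        (aeval y Q = 0 ↔ Q ∈ q)) → RamifiedPl y D →
      ¬ SpecialField (FunField P) ∧ ¬ BrodySpecial P := by
  have hM2 : (0 : ℝ) < (M : ℝ) + 2 := by positivity
  set η : ℝ := 1 / ((M : ℝ) + 2) with hη
  have hη0 : 0 < η := by positivity
  have hη1 : η < 1 := by
    rw [hη, div_lt_one hM2]
    have : (0 : ℝ) ≤ M := Nat.cast_nonneg M
    linarith
  obtain ⟨N₁, hN₁⟩ := lo_mixed n e M q hq hqh hη0 hη1
  by_cases htr : Tr q 2
  swap
  · refine ⟨e, ?_⟩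
    intro D hD hD' _ hcard
    exact absurd (tr_two_of_card hq hqh D (fun Q hQ => ⟨(hD Q hQ).1, (hD Q hQ).2.1, (hD Q hQ).2.2.1,
      (hD Q hQ).2.2.2.1⟩) hD' hcard) htr
  obtain ⟨N₂, hN₂⟩ := not_special_y n e M q hq hqh htr
  refine ⟨max N₁ N₂, ?_⟩
  intro D hD hD' hpt hcard m P _ hP y hyq hT
  have hDn : D.Nonempty := Finset.card_pos.1 (lt_of_le_of_lt (Nat.zero_le _) hcard)
  obtain ⟨d, Z, hd, hZ0, hZh, hZD, hL⟩ := hN₁ D hD hD' hpt
    (lt_of_le_of_lt (le_max_left _ _) hcard)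
  refine ⟨hN₂ D hD hpt (lt_of_le_of_lt (le_max_right _ _) hcard) _ y hyq hT, ?_⟩
  have hρ : (M : ℝ) / (M + 1) < 1 - η := by
    have hM0 : (0 : ℝ) ≤ M := Nat.cast_nonneg M
    have h2 : (1 : ℝ) - η = ((M : ℝ) + 1) / (M + 2) := by
      rw [hη]
      field_simp
      ring
    rw [h2, div_lt_div_iff₀ (by positivity) hM2]
    nlinarith
  exact not_brody_y hρ hq hqh htr D hDn (fun Q hQ => ⟨(hD Q hQ).1, (hD Q hQ).2.2.1,
    (hD Q hQ).2.2.2.1⟩) hpt Z hZ0 hZh hZD hL P hP y hyq hT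

end Pool.Agent.YB
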