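import Pool.Agent.Lib_MP_b9fedf_qy.TrLem
import Pool.Agent.Lib_MP_b9fedf_qy.HPrime

/-! Piece YB-1: a transcendence basis of coordinates. -/

set_option autoImplicit false

namespace Pool.Agent.YB
open MvPolynomial Pool.Agent.QY

private theorem pd_ren {n k : ℕ} (w : Fin (k + 1) → Fin (n + 1)) (l : Fin (n + 1))
    (hl : l ∉ Set.range w) (p : MvPolynomial (Fin (k + 1)) ℂ) : pderiv l (rename w p) = 0 := by
  classical
  apply pderiv_eq_zero_of_notMem_vars
  intro h
  have h1 := vars_rename w p h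
  rw [Finset.mem_image] at h1
  obtain ⟨a, _, ha⟩ := h1
  exact hl ⟨a, ha⟩

private theorem hc_ren {n k : ℕ} (w : Fin (k + 1) → Fin (n + 1)) (j : Fin (n + 1))
    (p : MvPolynomial (Fin (k + 1)) ℂ) (g i : ℕ) (hi : i ≤ g) :
    homogeneousComponent g (rename w p * X j ^ i) =
      rename w (homogeneousComponent (g - i) p) * X j ^ i := by
  classical
  conv_lhs => rw [← sum_homogeneousComponent p]
  rw [map_sum, Finset.sum_mul, map_sum]
  have h1 : ∀ d ∈ Finset.range (p.totalDegree + 1),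
      homogeneousComponent g (rename w (homogeneousComponent d p) * X j ^ i) =
        if d = g - i then rename w (homogeneousComponent d p) * X j ^ i else 0 := by
    intro d _
    have h2 : (rename w (homogeneousComponent d p) * X j ^ i :
        MvPolynomial (Fin (n + 1)) ℂ).IsHomogeneous (d + i) :=
      ((homogeneousComponent_isHomogeneous d p).rename_isHomogeneous).mul
        (isHomogeneous_X_pow j i)
    rw [homogeneousComponent_of_mem ((mem_homogeneousSubmodule _ _).2 h2)]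
    by_cases hd : d = g - i
    · rw [if_pos hd, if_pos (by omega)]
    · rw [if_neg hd, if_neg (by omega)]
  rw [Finset.sum_congr rfl h1, Finset.sum_ite_eq']
  split_ifs with h3
  · rfl
  · rw [homogeneousComponent_eq_zero (g - i) p (by
      rw [Finset.mem_range] at h3; omega), map_zero, zero_mul]

private theorem ev_sum {n k : ℕ} (w : Fin (k + 1) → Fin (n + 1)) (j : Fin (n + 1)) (r : ℕ)
    (a : ℕ → MvPolynomial (Fin (k + 1)) ℂ) :
    (∑ i ∈ Finset.range (r + 1), Polynomial.monomial i (a i)).eval₂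
      (rename w : MvPolynomial (Fin (k + 1)) ℂ →ₐ[ℂ] MvPolynomial (Fin (n + 1)) ℂ).toRingHom (X j)
      = ∑ i ∈ Finset.range (r + 1), rename w (a i) * X j ^ i := by
  rw [Polynomial.eval₂_finsetSum]
  refine Finset.sum_congr rfl fun i _ => ?_
  rw [Polynomial.eval₂_monomial]
  rfl

private theorem co_sum {k : ℕ} (r : ℕ) (a : ℕ → MvPolynomial (Fin (k + 1)) ℂ) (s : ℕ)
    (hs : s ≤ r) :
    (∑ i ∈ Finset.range (r + 1), Polynomial.monomial i (a i)).coeff s = a s := by
  rw [Polynomial.finsetSum_coeff]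
  simp only [Polynomial.coeff_monomial]
  rw [Finset.sum_ite_eq', if_pos (Finset.mem_range.2 (by omega))]

private theorem de_sum {k : ℕ} (r : ℕ) (a : ℕ → MvPolynomial (Fin (k + 1)) ℂ) :
    (∑ i ∈ Finset.range (r + 1), Polynomial.monomial i (a i)).natDegree ≤ r := by
  refine Polynomial.natDegree_sum_le_of_forall_le _ _ fun i hi => ?_
  refine (Polynomial.natDegree_monomial_le _).trans ?_
  rw [Finset.mem_range] at hi; omega

private theorem rel_exists {n k : ℕ} {q : Ideal (MvPolynomial (Fin (n + 1)) ℂ)}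
    (hqh : HomI q) (w : Fin (k + 1) → Fin (n + 1))
    (hw : ∀ R : MvPolynomial (Fin (k + 1)) ℂ, rename w R ∈ q → R = 0)
    (j : Fin (n + 1)) (hj : j ∉ Set.range w)
    (P : Polynomial (MvPolynomial (Fin (k + 1)) ℂ)) (hP : P ≠ 0)
    (hPq : P.eval₂ (rename w : MvPolynomial (Fin (k + 1)) ℂ →ₐ[ℂ]
      MvPolynomial (Fin (n + 1)) ℂ).toRingHom (X j) ∈ q) :
    ∃ (r g : ℕ) (a : ℕ → MvPolynomial (Fin (k + 1)) ℂ), 1 ≤ r ∧ r ≤ g ∧
        (∀ i ≤ r, (a i).IsHomogeneous (g - i)) ∧ a r ≠ 0 ∧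
        ∑ i ∈ Finset.range (r + 1), rename w (a i) * X j ^ i ∈ q ∧
        pderiv j (∑ i ∈ Finset.range (r + 1), rename w (a i) * X j ^ i) ∉ q := by
  classical
  have hex : ∃ r : ℕ, ∃ P : Polynomial (MvPolynomial (Fin (k + 1)) ℂ), P ≠ 0 ∧
      P.eval₂ (rename w : MvPolynomial (Fin (k + 1)) ℂ →ₐ[ℂ]
      MvPolynomial (Fin (n + 1)) ℂ).toRingHom (X j) ∈ q ∧ P.natDegree = r :=
    ⟨_, P, hP, hPq, rfl⟩
  obtain ⟨Q, hQ, hQq, hQr⟩ := Nat.find_spec hex
  have hmin : ∀ P : Polynomial (MvPolynomial (Fin (k + 1)) ℂ), P ≠ 0 →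
      P.eval₂ (rename w : MvPolynomial (Fin (k + 1)) ℂ →ₐ[ℂ]
      MvPolynomial (Fin (n + 1)) ℂ).toRingHom (X j) ∈ q → Nat.find hex ≤ P.natDegree :=
    fun P h1 h2 => Nat.find_min' hex ⟨P, h1, h2, rfl⟩
  generalize Nat.find hex = r at hQr hmin
  have hlc : Q.coeff r ≠ 0 := by
    rw [← hQr]; exact Polynomial.leadingCoeff_ne_zero.2 hQ
  obtain ⟨d, hd⟩ : ∃ d, homogeneousComponent d (Q.coeff r) ≠ 0 := by
    by_contra hc
    push Not at hc
    apply hlc
    rw [← sum_homogeneousComponent (Q.coeff r)]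
    exact Finset.sum_eq_zero fun d _ => hc d
  have hQs : Q.eval₂ (rename w : MvPolynomial (Fin (k + 1)) ℂ →ₐ[ℂ]
      MvPolynomial (Fin (n + 1)) ℂ).toRingHom (X j) =
      ∑ i ∈ Finset.range (r + 1), rename w (Q.coeff i) * X j ^ i := by
    rw [Polynomial.eval₂_eq_sum_range, hQr]
    rfl
  have hmem : ∑ i ∈ Finset.range (r + 1),
      rename w (homogeneousComponent (r + d - i) (Q.coeff i)) * X j ^ i ∈ q := by
    have h1 := hqh _ hQq (r + d)
    rw [hQs, map_sum] at h1
    rw [Finset.sum_congr rfl fun i hi => (hc_ren w j (Q.coeff i) (r + d) i (by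
      rw [Finset.mem_range] at hi; omega))] at h1
    exact h1
  have hr1 : 1 ≤ r := by
    by_contra hc
    have h0 : r = 0 := by omega
    subst h0
    rw [zero_add, Finset.sum_range_one, pow_zero, mul_one, Nat.sub_zero, zero_add] at hmem
    exact hd (hw _ hmem)
  refine ⟨r, r + d, fun i => homogeneousComponent (r + d - i) (Q.coeff i), hr1, by omega,
    fun i _ => homogeneousComponent_isHomogeneous _ _, ?_, hmem, ?_⟩
  · show homogeneousComponent (r + d - r) (Q.coeff r) ≠ 0
    rw [Nat.add_sub_cancel_left]; exact hd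
  · intro hder
    obtain ⟨s, rfl⟩ : ∃ s, r = s + 1 := ⟨r - 1, by omega⟩
    set a : ℕ → MvPolynomial (Fin (k + 1)) ℂ :=
      fun i => homogeneousComponent (s + 1 + d - i) (Q.coeff i) with ha
    have hasum : pderiv j (∑ i ∈ Finset.range (s + 1 + 1), rename w (a i) * X j ^ i) =
        ∑ i ∈ Finset.range (s + 1), rename w (((i + 1 : ℕ) : MvPolynomial (Fin (k + 1)) ℂ)
          * a (i + 1)) * X j ^ i := by
      rw [map_sum, Finset.sum_range_succ']
      have h0 : pderiv j (rename w (a 0) * X j ^ 0) = 0 := by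
        rw [pow_zero, mul_one]; exact pd_ren w j hj _
      rw [h0, add_zero]
      refine Finset.sum_congr rfl fun i _ => ?_
      rw [Derivation.leibniz, pd_ren w j hj, smul_zero, add_zero, Derivation.leibniz_pow,
        pderiv_X_self, map_mul, map_natCast, Nat.add_sub_cancel]
      simp only [smul_eq_mul, nsmul_eq_mul, mul_one]
      ring
    rw [hasum] at hder
    rw [← ev_sum w j s (fun i => ((i + 1 : ℕ) : MvPolynomial (Fin (k + 1)) ℂ) * a (i + 1))] at hder
    have h2 := hmin _ ?_ hder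
    · have h3 := de_sum s (fun i => ((i + 1 : ℕ) : MvPolynomial (Fin (k + 1)) ℂ) * a (i + 1))
      omega
    · intro h4
      have h5 := co_sum s (fun i => ((i + 1 : ℕ) : MvPolynomial (Fin (k + 1)) ℂ) * a (i + 1)) s le_rfl
      rw [h4, Polynomial.coeff_zero] at h5
      have h6 : ((s + 1 : ℕ) : MvPolynomial (Fin (k + 1)) ℂ) ≠ 0 :=
        Nat.cast_ne_zero.2 (Nat.succ_ne_zero s)
      have h7 := (mul_eq_zero.1 h5.symm).resolve_left h6
      apply hd
      have h8 : a (s + 1) = homogeneousComponent (s + 1 + d - (s + 1)) (Q.coeff (s + 1)) := rfl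
      rw [h8, Nat.add_sub_cancel_left] at h7
      exact h7

private theorem fsucc {n k : ℕ} (w : Fin (k + 1) → Fin (n + 1)) (j : Fin (n + 1))
    (G : MvPolynomial (Fin (k + 2)) ℂ) :
    rename (Fin.cons j w : Fin (k + 2) → Fin (n + 1)) G =
      (finSuccEquiv ℂ (k + 1) G).eval₂ (rename w : MvPolynomial (Fin (k + 1)) ℂ →ₐ[ℂ]
        MvPolynomial (Fin (n + 1)) ℂ).toRingHom (X j) := by
  have h2 : (rename (Fin.cons j w : Fin (k + 2) → Fin (n + 1)) :
      MvPolynomial (Fin (k + 2)) ℂ →ₐ[ℂ] MvPolynomial (Fin (n + 1)) ℂ).toRingHom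
      = (Polynomial.eval₂RingHom (rename w : MvPolynomial (Fin (k + 1)) ℂ →ₐ[ℂ]
      MvPolynomial (Fin (n + 1)) ℂ).toRingHom (X j)).comp
        (finSuccEquiv ℂ (k + 1)).toRingEquiv.toRingHom := by
    apply MvPolynomial.ringHom_ext
    · intro r
      have h5 : (finSuccEquiv ℂ (k + 1)) (C r) = Polynomial.C (C r) := by
        have h6 := (finSuccEquiv ℂ (k + 1)).commutes r
        rwa [algebraMap_eq] at h6
      have h7 : ((finSuccEquiv ℂ (k + 1)).toRingEquiv.toRingHom) (C r) = Polynomial.C (C r) := h5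
      rw [RingHom.comp_apply, h7]
      simp [algebraMap_eq]
    · intro i
      refine Fin.cases ?_ (fun l => ?_) i
      · simp [finSuccEquiv_X_zero]
      · simp [finSuccEquiv_X_succ]
  exact congrArg (fun φ => φ G) h2

/-- PIECE YB-1. `A = ℂ[X] / q` is a domain generated by the classes of the `X j`; choose a
transcendence basis of `A` (or its fraction field) over `ℂ` among the classes of the coordinates
(Mathlib: `exists_isTranscendenceBasis_subset` or similar, with `Algebra.adjoin = ⊤`); it has `k + 1` elements,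
`k ≥ 1` by `htr`, and `¬ Tr q (k + 2)` (cardinality of algebraically independent families; see
`tr_le` in TrLem.lean).  Relations: for `j` not in the range of `w` there is a polynomial
`F(w, X j) = ∑ a i (w) X j ^ i ∈ q` which is not zero; as `q` is homogeneous (`HomI`), one of its homogeneous
components (`a i` of degree `g - i`) is a nonzero relation; among all homogeneous nonzero relations take one of
least degree `r` in `X j` (`a r ≠ 0`, `a i = 0` for `i > r`); `r ≥ 1` by the independence of the `w`; the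
derivative with respect to `X j` has degree `r - 1` and is nonzero (`r * a r ≠ 0`), so it is not in `q`. -/
theorem y_basis {n : ℕ} {q : Ideal (MvPolynomial (Fin (n + 1)) ℂ)} (hq : q.IsPrime)
    (hqh : HomI q) (htr : Tr q 2) :
    ∃ (k : ℕ) (w : Fin (k + 1) → Fin (n + 1)), 1 ≤ k ∧ Function.Injective w ∧ ¬ Tr q (k + 2) ∧
      (∀ R : MvPolynomial (Fin (k + 1)) ℂ, rename w R ∈ q → R = 0) ∧
      ∀ j, j ∉ Set.range w → ∃ (r g : ℕ) (a : ℕ → MvPolynomial (Fin (k + 1)) ℂ), 1 ≤ r ∧ r ≤ g ∧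
        (∀ i ≤ r, (a i).IsHomogeneous (g - i)) ∧ a r ≠ 0 ∧
        ∑ i ∈ Finset.range (r + 1), rename w (a i) * X j ^ i ∈ q ∧
        pderiv j (∑ i ∈ Finset.range (r + 1), rename w (a i) * X j ^ i) ∉ q := by
  classical
  have hq1 := hq
  have hdom : IsDomain (MvPolynomial (Fin (n + 1)) ℂ ⧸ q) := Ideal.Quotient.isDomain q
  have hmk : ∀ (m : ℕ) (v : Fin m → MvPolynomial (Fin (n + 1)) ℂ) (R : MvPolynomial (Fin m) ℂ),
      aeval (fun i => Ideal.Quotient.mkₐ ℂ q (v i)) R = Ideal.Quotient.mkₐ ℂ q (aeval v R) :=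
    fun m v R => (comp_aeval_apply v (Ideal.Quotient.mkₐ ℂ q) R).symm
  have hmem : ∀ s : MvPolynomial (Fin (n + 1)) ℂ, Ideal.Quotient.mkₐ ℂ q s = 0 ↔ s ∈ q := by
    intro s
    rw [Ideal.Quotient.mkₐ_eq_mk]
    exact Ideal.Quotient.eq_zero_iff_mem
  set x : Fin (n + 1) → (MvPolynomial (Fin (n + 1)) ℂ ⧸ q) :=
    fun j => Ideal.Quotient.mkₐ ℂ q (X j) with hx
  have hadj : Algebra.adjoin ℂ (Set.range x) = ⊤ := by
    have h1 : Set.range x = (Ideal.Quotient.mkₐ ℂ q) '' (Set.range X) := by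
      rw [← Set.range_comp]; rfl
    rw [h1, ← AlgHom.map_adjoin, adjoin_range_X, Algebra.map_top, AlgHom.range_eq_top]
    exact Ideal.Quotient.mkₐ_surjective ℂ q
  have halg : Algebra.IsAlgebraic (Algebra.adjoin ℂ (Set.range x))
      (MvPolynomial (Fin (n + 1)) ℂ ⧸ q) := by
    constructor
    intro a
    have h1 : a ∈ Algebra.adjoin ℂ (Set.range x) := by rw [hadj]; exact Algebra.mem_top
    exact isAlgebraic_algebraMap (⟨a, h1⟩ : Algebra.adjoin ℂ (Set.range x))
  obtain ⟨t, ht, hB⟩ := exists_isTranscendenceBasis_subset (R := ℂ) (Set.range x)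
  have : Fintype t := ((Set.finite_range x).subset ht).fintype
  have hcard := hB.cardinalMk_eq_trdeg
  rw [Cardinal.mk_fintype] at hcard
  have hbd : ∀ (m : ℕ) (y : Fin m → (MvPolynomial (Fin (n + 1)) ℂ ⧸ q)),
      AlgebraicIndependent ℂ y → m ≤ Fintype.card t := by
    intro m y hy
    have h1 := hy.cardinalMk_le_trdeg
    rw [← hcard, Cardinal.mk_fin] at h1
    exact_mod_cast h1
  have htrb : ∀ m, Tr q m → m ≤ Fintype.card t := by
    rintro m ⟨v, hv⟩
    refine hbd m (fun i => Ideal.Quotient.mkₐ ℂ q (v i)) ?_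
    rw [algebraicIndependent_iff]
    intro G hG
    rw [hmk, hmem] at hG
    exact hv G hG
  have h2 := htrb 2 htr
  obtain ⟨k, hk⟩ : ∃ k, Fintype.card t = k + 1 := ⟨Fintype.card t - 1, by omega⟩
  have e : Fin (k + 1) ≃ t := (finCongr hk.symm).trans (Fintype.equivFin t).symm
  have hpre : ∀ i : Fin (k + 1), ∃ j, x j = (e i : MvPolynomial (Fin (n + 1)) ℂ ⧸ q) :=
    fun i => ht (e i).2
  choose w hw using hpre
  have hren : ∀ (m : ℕ) (v : Fin m → Fin (n + 1)) (R : MvPolynomial (Fin m) ℂ),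
      aeval (fun i => x (v i)) R = Ideal.Quotient.mkₐ ℂ q (rename v R) := by
    intro m v R
    have h3 := hmk m (fun i => X (v i)) R
    have h4 : aeval (fun i => (X (v i) : MvPolynomial (Fin (n + 1)) ℂ)) R = rename v R := by
      conv_rhs => rw [← aeval_X_left_apply R]
      rw [← AlgHom.comp_apply, comp_aeval]
      simp only [rename_X]
    rw [hx, h3, h4]
  have hwi : Function.Injective w := by
    intro i i' h
    have h3 : (e i : MvPolynomial (Fin (n + 1)) ℂ ⧸ q) = e i' := by rw [← hw, ← hw, h]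
    exact e.injective (Subtype.ext h3)
  have hind : ∀ R : MvPolynomial (Fin (k + 1)) ℂ, rename w R ∈ q → R = 0 := by
    intro R hR
    have h3 : AlgebraicIndependent ℂ (fun i => x (w i)) := by
      have h4 := hB.1.comp e e.injective
      have h5 : (fun i => x (w i)) = (Subtype.val : t → _) ∘ e := by
        funext i; rw [hw]; rfl
      rw [h5]; exact h4
    rw [algebraicIndependent_iff] at h3
    exact h3 R (by rw [hren, hmem]; exact hR)
  refine ⟨k, w, by omega, hwi, ?_, hind, ?_⟩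
  · intro h3
    have h4 := htrb _ h3
    omega
  · intro j hj
    have h3 : ¬ AlgebraicIndependent ℂ (fun i => x ((Fin.cons j w : Fin (k + 2) → Fin (n + 1)) i)) := by
      intro h4
      have h5 := hbd _ _ h4
      omega
    rw [algebraicIndependent_iff] at h3
    push Not at h3
    obtain ⟨G, hG, hG0⟩ := h3
    rw [hren, hmem, fsucc] at hG
    exact rel_exists hqh w hind j hj (finSuccEquiv ℂ (k + 1) G)
      (fun h4 => hG0 ((finSuccEquiv ℂ (k + 1)).injective (by rw [h4, map_zero]))) hG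

/-- PIECE YB-1 (second part). -/
theorem rel_form {n k : ℕ} (w : Fin (k + 1) → Fin (n + 1)) (j : Fin (n + 1))
    (hj : j ∉ Set.range w) (r g : ℕ) (hrg : r ≤ g) (a : ℕ → MvPolynomial (Fin (k + 1)) ℂ)
    (ha : ∀ i ≤ r, (a i).IsHomogeneous (g - i)) :
    (∑ i ∈ Finset.range (r + 1), rename w (a i) * X j ^ i :
      MvPolynomial (Fin (n + 1)) ℂ).IsHomogeneous g ∧
    ∀ l, l ≠ j → l ∉ Set.range w →
      pderiv l (∑ i ∈ Finset.range (r + 1), rename w (a i) * X j ^ i) = 0 := by
  refine ⟨?_, ?_⟩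
  · refine IsHomogeneous.sum _ _ _ fun i hi => ?_
    rw [Finset.mem_range] at hi
    have h1 := ((ha i (by omega)).rename_isHomogeneous (f := w)).mul
      (isHomogeneous_X_pow (R := ℂ) j i)
    rwa [Nat.sub_add_cancel (by omega)] at h1
  · intro l hlj hlw
    rw [map_sum]
    refine Finset.sum_eq_zero fun i _ => ?_
    rw [Derivation.leibniz, pd_ren w l hlw, smul_zero, add_zero, Derivation.leibniz_pow,
      pderiv_X_of_ne (Ne.symm hlj), smul_zero, smul_zero, smul_zero]

end Pool.Agent.YB
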