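import Pool.Agent.Lib_MP_1209e6_mh.CoreE
import Pool.Agent.Lib_MP_b9fedf_qy.DefsR

/-! Piece YB-7: few members vanish at the centre of a place. -/

set_option autoImplicit false

namespace Pool.Agent.YB
open MvPolynomial Pool.Agent.QY Pool.Agent.Campana

/-- PIECE YB-7 As `card_vanishing` (Lib_MP_1209e6_mh/CoreE.lean), with the ideal
`q ⊔ span B` in place of `span B`. -/
theorem card_vanishing_y {K : Type} [Field K] [Algebra ℂ K] {O : ValuationSubring K}
    (hO : IsPlace O) {v : K → ℤ} (hv : IsOrd O v) {n M : ℕ}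
    {q : Ideal (MvPolynomial (Fin (n + 1)) ℂ)} (x : Fin (n + 1) → K)
    (hx : ∀ j, x j ∈ O) (i₀ : Fin (n + 1)) (hi₀ : x i₀ = 1)
    (hxq : ∀ Q ∈ q, aeval x Q = 0)
    (D : Finset (MvPolynomial (Fin (n + 1)) ℂ))
    (hD : ∀ P ∈ D, aeval x P ≠ 0)
    (hpt : ∀ ξ : Fin (n + 1) → ℂ, ξ ≠ 0 → (∀ g ∈ q, eval ξ g = 0) → ∀ A ⊆ D,
      (∀ P ∈ A, eval ξ P = 0) → A.card ≤ M) :
    ∀ B ⊆ D, (∀ P ∈ B, 1 ≤ v (aeval x P)) → B.card ≤ M := by
  intro B hB hBv
  obtain ⟨t, ht0, hvt⟩ := hv.2.2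
  by_contra hcon
  -- every common zero lies on a coordinate hyperplane
  have h1 : X i₀ ∈ vanishingIdeal ℂ
      (zeroLocus ℂ (q ⊔ Ideal.span (B : Set (MvPolynomial (Fin (n + 1)) ℂ)))) := by
    rw [mem_vanishingIdeal_iff]
    intro ξ hξ
    rw [aeval_X]
    by_contra hne
    apply hcon
    refine hpt ξ (fun h0 => hne (by rw [h0]; rfl)) (fun g hg => ?_) B hB fun P hP => ?_
    · exact hξ g (Submodule.mem_sup_left hg)
    · exact hξ P (Submodule.mem_sup_right (Ideal.subset_span hP))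
  rw [vanishingIdeal_zeroLocus_eq_radical] at h1
  obtain ⟨N, hN⟩ := h1
  -- evaluation at the centre
  have h2 : ∀ Q ∈ Ideal.span (B : Set (MvPolynomial (Fin (n + 1)) ℂ)), aeval x Q / t ∈ O := by
    intro Q hQ
    induction hQ using Submodule.span_induction with
    | mem P hP =>
      have hPx := hD P (hB hP)
      rw [hv.2.1 _ (div_ne_zero hPx ht0), ord_div hv _ _ hPx ht0, hvt]
      have := hBv P hP
      omega
    | zero =>
      rw [map_zero, zero_div]
      exact O.zero_mem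
    | add a b _ _ ha hb =>
      rw [map_add, add_div]
      exact O.add_mem _ _ ha hb
    | smul a b _ hb =>
      rw [smul_eq_mul, map_mul, mul_div_assoc]
      exact O.mul_mem _ _ (aeval_mem hO x hx a) hb
  have h3 : aeval x ((X i₀ : MvPolynomial (Fin (n + 1)) ℂ) ^ N) / t ∈ O := by
    obtain ⟨a, ha, b, hb, hab⟩ := Submodule.mem_sup.1 hN
    rw [← hab, map_add, hxq a ha, zero_add]
    exact h2 b hb
  rw [map_pow, aeval_X, hi₀, one_pow, hv.2.1 _ (div_ne_zero one_ne_zero ht0),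
    ord_div hv _ _ one_ne_zero ht0, F_ord_one hv, hvt] at h3
  omega

end Pool.Agent.YB
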