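import Pool.Agent.Lib_MP_b9fedf_qy.DefsY
import Pool.Agent.Lib_MP_1209e6_mh.Sqf

/-! Piece YB-5: the centre of a place with log discrepancy one. -/

set_option autoImplicit false

namespace Pool.Agent.YB
open MvPolynomial Pool.Agent.QY Pool.Agent.Campana

/-- PIECE YB-5 (first part). Copy from the proof of `ord_squarefree` (Lib_MP_1209e6_mh/Sqf.lean):
`hfree` there.  If no nonzero form vanishes at the place then any `j` will do; otherwise let `P` be one, and
follow the proof from `hgrad` to `hfree` (the hypotheses `hsq` and `2 ≤ v` are not used there, only `hPt`). -/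
theorem place_free {K : Type} [Field K] [Algebra ℂ K] {O : ValuationSubring K}
    (hO : IsPlace O) {v : K → ℤ} (hv : IsOrd O v) {k : ℕ} (x : Fin (k + 1) → K)
    (hx : ∀ j, x j ∈ O)
    (hnd : ∀ (d : ℕ) (Q : MvPolynomial (Fin (k + 1)) ℂ), Q.IsHomogeneous d → aeval x Q = 0 → Q = 0)
    (E : Fin k → Derivation ℂ K K) (hE : ∀ i, ∀ a ∈ O, E i a ∈ O)
    (hdet : (wrM x E).det ≠ 0) (hv0 : v (wrM x E).det = 0) :
    ∃ j : Fin (k + 1), ∀ (d : ℕ) (R : MvPolynomial (Fin (k + 1)) ℂ), R.IsHomogeneous d →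
      pderiv j R = 0 → (aeval x R = 0 ∨ 1 ≤ v (aeval x R)) → R = 0 := by
  obtain ⟨t, ht0, hvt⟩ := hv.2.2
  have htO : t ∈ O := by
    rw [hv.2.1 t ht0, hvt]
    norm_num
  set Δ := (wrM x E).det with hΔ
  have hΔi : Δ⁻¹ ∈ O := by
    rw [hv.2.1 _ (inv_ne_zero hdet), F_ord_inv hv _ hdet, hv0]
    norm_num
  have hmem1 : ∀ a : K, a ≠ 0 → (a / t ∈ O ↔ 1 ≤ v a) := by
    intro a ha
    rw [hv.2.1 _ (div_ne_zero ha ht0), div_eq_mul_inv, hv.1 _ _ ha (inv_ne_zero ht0),
      F_ord_inv hv t ht0, hvt]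
    omega
  -- the maximal ideal
  have hmadd : ∀ a b : K, a / t ∈ O → b / t ∈ O → (a + b) / t ∈ O := by
    intro a b ha hb
    rw [add_div]
    exact O.add_mem _ _ ha hb
  have hmmul : ∀ a b : K, a ∈ O → b / t ∈ O → (a * b) / t ∈ O := by
    intro a b ha hb
    rw [mul_div_assoc]
    exact O.mul_mem _ _ ha hb
  have hprime : ∀ a b : K, a ∈ O → b ∈ O → (a * b) / t ∈ O → a / t ∈ O ∨ b / t ∈ O := by
    intro a b ha hb hab
    by_cases ha0 : a = 0
    · left
      rw [ha0, zero_div]
      exact O.zero_mem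
    by_cases hb0 : b = 0
    · right
      rw [hb0, zero_div]
      exact O.zero_mem
    rw [hmem1 _ (mul_ne_zero ha0 hb0), hv.1 _ _ ha0 hb0] at hab
    rw [hmem1 a ha0, hmem1 b hb0]
    have h1 := (hv.2.1 a ha0).1 ha
    have h2 := (hv.2.1 b hb0).1 hb
    omega
  have h1t : ∀ c : ℂ, c ≠ 0 → ¬ algebraMap ℂ K c / t ∈ O := by
    intro c hc h
    rw [hmem1 _ ((map_ne_zero _).2 hc), ord_const hO hv c hc] at h
    omega
  -- the conormal vector
  set bb : Fin (k + 1) → K := fun j => ∑ i : Fin k, (wrM x E).adjugate j i.succ * E i t with hbb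
  have hgrad : ∀ (d : ℕ) (Q : MvPolynomial (Fin (k + 1)) ℂ), Q.IsHomogeneous d →
      aeval x Q / t ∈ O → ∀ j,
        (Δ * aeval x (pderiv j Q) - aeval x Q / t * bb j) / t ∈ O := by
    intro d Q hQ hQt j
    set q := aeval x Q / t with hq
    have hQq : aeval x Q = t * q := by
      rw [hq]
      field_simp
    have h1 := det_grad x E Q d hQ j
    rw [← hΔ] at h1
    have h2 : ∀ i, E i (aeval x Q) = t * E i q + q * E i t := by
      intro i
      rw [hQq, Derivation.leibniz]
      rfl
    have h3 : (Δ * aeval x (pderiv j Q) - q * bb j) / t =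
        (wrM x E).adjugate j 0 * ((d : K) * q) +
        ∑ i : Fin k, (wrM x E).adjugate j i.succ * E i q := by
      rw [h1]
      simp only [h2, hbb, mul_add, Finset.sum_add_distrib]
      rw [hQq, div_eq_iff ht0, add_mul, Finset.sum_mul, Finset.mul_sum]
      have h4 : ∑ i : Fin k, (wrM x E).adjugate j i.succ * (q * E i t) =
          ∑ i : Fin k, q * ((wrM x E).adjugate j i.succ * E i t) :=
        Finset.sum_congr rfl fun i _ => by ring
      have h5 : ∑ i : Fin k, (wrM x E).adjugate j i.succ * (t * E i q) =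
          ∑ i : Fin k, (wrM x E).adjugate j i.succ * E i q * t :=
        Finset.sum_congr rfl fun i _ => by ring
      rw [h4, h5]
      ring
    rw [h3]
    refine O.add_mem _ _ (O.mul_mem _ _ (adj_mem x hx E hE _ _)
      (O.mul_mem _ _ (natCast_mem O d) hQt)) (sum_mem fun i _ =>
        O.mul_mem _ _ (adj_mem x hx E hE _ _) (hE i q hQt))
  -- if the conormal vector (times the leading part) vanishes then so does the gradient
  have hgrad0 : ∀ (d : ℕ) (Q : MvPolynomial (Fin (k + 1)) ℂ), Q.IsHomogeneous d →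
      aeval x Q / t ∈ O → ∀ j, (aeval x Q / t * bb j) / t ∈ O →
        aeval x (pderiv j Q) / t ∈ O := by
    intro d Q hQ hQt j hb
    have h1 := hmadd _ _ (hgrad d Q hQ hQt j) hb
    have h2 : Δ * aeval x (pderiv j Q) - aeval x Q / t * bb j + aeval x Q / t * bb j =
        Δ * aeval x (pderiv j Q) := by ring
    rw [h2] at h1
    have h3 := hmmul Δ⁻¹ _ hΔi h1
    rwa [← mul_assoc, inv_mul_cancel₀ hdet, one_mul] at h3
  have hzero : ∀ (Q : MvPolynomial (Fin (k + 1)) ℂ), Q.IsHomogeneous 0 → aeval x Q / t ∈ O →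
      Q = 0 := by
    intro Q hQ hQt
    have h1 : Q = C (coeff 0 Q) := by
      rw [← totalDegree_zero_iff_isHomogeneous] at hQ
      exact totalDegree_eq_zero_iff_eq_C.1 hQ
    by_contra hne
    have h2 : coeff 0 Q ≠ 0 := by
      intro h0
      rw [h0, map_zero] at h1
      exact hne h1
    rw [h1, aeval_C] at hQt
    exact h1t _ h2 hQt
  have hbbO : ∀ j, bb j ∈ O := fun j => sum_mem fun i _ =>
    O.mul_mem _ _ (adj_mem x hx E hE _ _) (hE i t htO)
  -- the hypothesis in terms of `t`
  have hconv : ∀ a : K, (a = 0 ∨ 1 ≤ v a) → a / t ∈ O := by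
    intro a ha
    by_cases ha0 : a = 0
    · rw [ha0, zero_div]
      exact O.zero_mem
    · rcases ha with h | h
      · exact absurd h ha0
      · exact (hmem1 a ha0).2 h
  by_cases hex : ∃ (e : ℕ) (P : MvPolynomial (Fin (k + 1)) ℂ), P.IsHomogeneous e ∧ P ≠ 0 ∧
      aeval x P / t ∈ O
  swap
  · push Not at hex
    refine ⟨0, fun d R hR _ hRt => ?_⟩
    by_contra hne
    exact hex d R hR hne (hconv _ hRt)
  obtain ⟨e, P, hP, hP0, hPt⟩ := hex
  -- some entry of the conormal vector is a unit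
  obtain ⟨j, hj⟩ : ∃ j, ¬ bb j / t ∈ O := by
    by_contra hall
    push Not at hall
    have hstep : ∀ (d : ℕ) (Q : MvPolynomial (Fin (k + 1)) ℂ), Q.IsHomogeneous d →
        aeval x Q / t ∈ O → Q = 0 := by
      intro d
      induction d with
      | zero => exact hzero
      | succ d ih =>
        intro Q hQ hQt
        by_contra hne
        obtain ⟨l, hl⟩ := exists_pderiv_ne Q hQ hne
        exact hl (ih _ hQ.pderiv (hgrad0 _ Q hQ hQt l (hmmul _ _ hQt (hall l))))
    exact hP0 (hstep e P hP hPt)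
  -- no form without the variable `j` vanishes
  have hfree : ∀ (d : ℕ) (R : MvPolynomial (Fin (k + 1)) ℂ), R.IsHomogeneous d →
      pderiv j R = 0 → aeval x R / t ∈ O → R = 0 := by
    intro d
    induction d with
    | zero => exact fun R hR _ hRt => hzero R hR hRt
    | succ d ih =>
      intro R hR hRj hRt
      by_contra hne
      have h1 := hgrad _ R hR hRt j
      rw [hRj, map_zero, mul_zero, zero_sub, neg_div, neg_mem_iff] at h1
      have h2 := (hprime _ _ hRt (hbbO j) h1).resolve_right hj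
      obtain ⟨l, hl⟩ := exists_pderiv_ne R hR hne
      refine hl (ih _ hR.pderiv ?_ (hgrad0 _ R hR hRt l ?_))
      · ext m
        have h3 := coeff_pderiv (i := j) R (m + Finsupp.single l 1)
        rw [hRj, coeff_zero] at h3
        have h4 : coeff (m + Finsupp.single l 1 + Finsupp.single j 1) R = 0 := by
          rcases mul_eq_zero.1 h3.symm with h5 | h5
          · exact h5
          · exact absurd h5 (Nat.cast_add_one_ne_zero _)
        rw [coeff_pderiv, coeff_pderiv, coeff_zero, add_right_comm, h4, zero_mul, zero_mul]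
      · rw [mul_comm]
        exact hmmul _ _ (hbbO l) h2
  exact ⟨j, fun d R hR hRj hRt => hfree d R hR hRj (hconv _ hRt)⟩

/-- PIECE YB-5 (second part). The `k` elements `X (w l)`, `l ≠ j`, with `j` from `place_free` for `x ∘ w`
(`Fin.succAbove j : Fin k → Fin (k + 1)`): if `G(X_w) ∈ 𝔓` then all homogeneous components are in `𝔓`
(`h𝔓h`), so for each `d` the form `R = rename j.succAbove (homogeneousComponent d G)` has `pderiv j R = 0` and vanishes at
the place (`aeval x (rename w R) = aeval (x ∘ w) R`), so it is zero; `rename` is injective. -/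
theorem place_tr {K : Type} [Field K] [Algebra ℂ K] {O : ValuationSubring K}
    (hO : IsPlace O) {v : K → ℤ} (hv : IsOrd O v) {n k : ℕ} (w : Fin (k + 1) → Fin (n + 1))
    (x : Fin (n + 1) → K) (hx : ∀ j, x j ∈ O)
    (hnd : ∀ (d : ℕ) (Q : MvPolynomial (Fin (k + 1)) ℂ), Q.IsHomogeneous d →
      aeval (fun l => x (w l)) Q = 0 → Q = 0)
    (E : Fin k → Derivation ℂ K K) (hE : ∀ i, ∀ a ∈ O, E i a ∈ O)
    (hdet : (wrM (fun l => x (w l)) E).det ≠ 0) (hv0 : v (wrM (fun l => x (w l)) E).det = 0)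
    (𝔓 : Ideal (MvPolynomial (Fin (n + 1)) ℂ)) (h𝔓h : HomI 𝔓)
    (h𝔓 : ∀ (d : ℕ) (Q : MvPolynomial (Fin (n + 1)) ℂ), Q.IsHomogeneous d →
      (Q ∈ 𝔓 ↔ aeval x Q = 0 ∨ 1 ≤ v (aeval x Q))) : Tr 𝔓 k := by
  obtain ⟨j, hj⟩ := place_free hO hv (fun l => x (w l)) (fun l => hx (w l)) hnd E hE hdet hv0
  refine ⟨fun i => X (w (j.succAbove i)), fun G hG => ?_⟩
  have h0 : (aeval (fun i => (X (w (j.succAbove i)) : MvPolynomial (Fin (n + 1)) ℂ)) :
      MvPolynomial (Fin k) ℂ →ₐ[ℂ] MvPolynomial (Fin (n + 1)) ℂ) =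
      rename (fun i => w (j.succAbove i)) := by
    apply MvPolynomial.algHom_ext
    intro i
    rw [aeval_X, rename_X]
  have h1 : aeval (fun i => (X (w (j.succAbove i)) : MvPolynomial (Fin (n + 1)) ℂ)) G =
      rename (fun i => w (j.succAbove i)) G := by rw [h0]
  rw [h1] at hG
  have h2 : ∀ d, homogeneousComponent d G = 0 := by
    intro d
    have h3 := h𝔓h _ hG d
    rw [← rename_homogeneousComponent] at h3
    have h4 := (h𝔓 d _ ((homogeneousComponent_isHomogeneous d G).rename_isHomogeneous)).1 h3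
    have h5 : aeval x (rename (fun i => w (j.succAbove i)) (homogeneousComponent d G)) =
        aeval (fun l => x (w l)) (rename j.succAbove (homogeneousComponent d G)) := by
      rw [aeval_rename, aeval_rename]
      rfl
    rw [h5] at h4
    have h6 := hj d _ ((homogeneousComponent_isHomogeneous d G).rename_isHomogeneous
      (f := j.succAbove)) ?_ h4
    · exact rename_injective _ Fin.succAbove_right_injective (h6.trans (map_zero _).symm)
    · apply pderiv_eq_zero_of_notMem_vars
      intro hm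
      have h7 := vars_rename j.succAbove (homogeneousComponent d G) hm
      rw [Finset.mem_image] at h7
      obtain ⟨a, _, ha⟩ := h7
      exact Fin.succAbove_ne j a ha
  rw [← sum_homogeneousComponent G]
  exact Finset.sum_eq_zero fun i _ => h2 i

end Pool.Agent.YB
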