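import Pool.Agent.Lib_MP_1209e6_yb.YPlace
import Pool.Agent.Lib_MP_1209e6_yb.YFree
import Pool.Agent.Lib_MP_b9fedf_qy.Red
import Pool.Agent.Lib_MP_b9fedf_qy.DerPoint
import Pool.Agent.Lib_MP_b9fedf_qy.DerHomog

/-! Piece YB-6: a reduced section has order at most one at a place with log discrepancy one. -/

set_option autoImplicit false

namespace Pool.Agent.YB
open MvPolynomial Pool.Agent.QY Pool.Agent.Campana

/-- all elements of `q` vanish -/
private theorem aeval_of_mem {K : Type} [Field K] [Algebra ℂ K] {n : ℕ}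
    {q : Ideal (MvPolynomial (Fin (n + 1)) ℂ)} (hqh : HomI q)
    (x : Fin (n + 1) → K)
    (hxq : ∀ (d : ℕ) (Q : MvPolynomial (Fin (n + 1)) ℂ), Q.IsHomogeneous d →
      (aeval x Q = 0 ↔ Q ∈ q)) (G : MvPolynomial (Fin (n + 1)) ℂ) (hG : G ∈ q) :
    aeval x G = 0 := by
  rw [← sum_homogeneousComponent G, map_sum]
  exact Finset.sum_eq_zero fun i _ =>
    (hxq i _ (homogeneousComponent_isHomogeneous i G)).2 (hqh G hG i)

/-- PIECE YB-6 (first part). Derivations of `ℂ[X]` which preserve `q`, at a place with log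
discrepancy one: `(dQ)(x) = ∑ c_i E_i(Q(x)) + m c₀ Q(x)` with `c_i, c₀ ∈ O`.
Proof.  `c` is the solution of `∑_i c_i E_i(x_(w l)) + c₀ x_(w l) = d_(w l)(x)`, `l ≤ k`: row vector times `(wrM (x ∘ w) E)⁻¹`
(the determinant is a unit of `O`; `adj_mem`, `aeval_mem` in Grad.lean).  `Δ_j = d_j(x) - ∑ c_i E_i(x_j) - c₀ x_j` is `0` for `j ∈ range w`.
For `j ∉ range w` let `F` be as in `hrel`; `(dF)(x) = 0` since `dF ∈ q` (components of elements of `q` are in
`q`), `(dF)(x) = ∑_l (∂_l F)(x) d_l(x)` (`mkDer_eq` in Good.lean), `E_i(F(x)) = 0 = ∑_l (∂_l F)(x) E_i(x_l)` (`F(x) = 0`; chain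
rule, as in the proof of `det_grad`) and `∑_l x_l (∂_l F)(x) = 0` (Euler: `∑_l X_l ∂_l F = ∑_d d F_d ∈ q`).  So
`∑_l (∂_l F)(x) Δ_l = 0`, only `l = j` is left: `(∂_j F)(x) Δ_j = 0`, and `(∂_j F)(x) ≠ 0` as `∂_j F ∉ q`
(`∂_j F` is homogeneous as `F` is).  So all `Δ_l = 0`; then the same computation for `Q`. -/
theorem y_transfer {K : Type} [Field K] [Algebra ℂ K] {O : ValuationSubring K}
    (hO : IsPlace O) {v : K → ℤ} (hv : IsOrd O v) {n k : ℕ}
    {q : Ideal (MvPolynomial (Fin (n + 1)) ℂ)} (hqh : HomI q) (w : Fin (k + 1) → Fin (n + 1))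
    (hrel : ∀ j, j ∉ Set.range w → ∃ (g : ℕ) (F : MvPolynomial (Fin (n + 1)) ℂ),
      F.IsHomogeneous g ∧ F ∈ q ∧ pderiv j F ∉ q ∧
      ∀ l, l ≠ j → l ∉ Set.range w → pderiv l F = 0)
    (x : Fin (n + 1) → K) (hx : ∀ j, x j ∈ O)
    (hxq : ∀ (d : ℕ) (Q : MvPolynomial (Fin (n + 1)) ℂ), Q.IsHomogeneous d →
      (aeval x Q = 0 ↔ Q ∈ q))
    (E : Fin k → Derivation ℂ K K) (hE : ∀ i, ∀ a ∈ O, E i a ∈ O)
    (hdet : (wrM (fun l => x (w l)) E).det ≠ 0) (hv0 : v (wrM (fun l => x (w l)) E).det = 0)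
    (d : Fin (n + 1) → MvPolynomial (Fin (n + 1)) ℂ) (hd : ∀ g ∈ q, mkDerivation ℂ d g ∈ q) :
    ∃ (c₀ : K) (c : Fin k → K), c₀ ∈ O ∧ (∀ i, c i ∈ O) ∧
      ∀ (m : ℕ) (Q : MvPolynomial (Fin (n + 1)) ℂ), Q.IsHomogeneous m →
        aeval x (mkDerivation ℂ d Q) = ∑ i, c i * E i (aeval x Q) + (m : K) * c₀ * aeval x Q := by
  classical
  set W := wrM (fun l => x (w l)) E with hW
  set δ : Fin (k + 1) → K := fun l => aeval x (d (w l)) with hδ
  set c' : Fin (k + 1) → K := fun r => W.det⁻¹ * ∑ l, δ l * W.adjugate l r with hc'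
  have hdi : W.det⁻¹ ∈ O := by
    rw [hv.2.1 _ (inv_ne_zero hdet), F_ord_inv hv _ hdet, hv0]
    norm_num
  have hc'O : ∀ r, c' r ∈ O := fun r => O.mul_mem _ _ hdi (sum_mem fun l _ =>
    O.mul_mem _ _ (aeval_mem hO x hx _) (adj_mem _ (fun l => hx (w l)) E hE _ _))
  have hc'W : ∀ l, ∑ r, c' r * W r l = δ l := by
    intro l
    have h1 : ∀ l', ∑ r, W.adjugate l' r * W r l = if l' = l then W.det else 0 := by
      intro l'
      have h2 := congrFun (congrFun (Matrix.adjugate_mul W) l') l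
      rw [Matrix.mul_apply] at h2
      rw [h2, Matrix.smul_apply, Matrix.one_apply]
      split_ifs <;> simp
    calc ∑ r, c' r * W r l = W.det⁻¹ * ∑ l', δ l' * ∑ r, W.adjugate l' r * W r l := by
          simp only [hc', Finset.mul_sum, Finset.sum_mul]
          rw [Finset.sum_comm]
          refine Finset.sum_congr rfl fun l' _ => Finset.sum_congr rfl fun r _ => by ring
      _ = W.det⁻¹ * (δ l * W.det) := by
          congr 1
          simp only [h1, mul_ite, mul_zero]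
          rw [Finset.sum_ite_eq' Finset.univ l]
          simp
      _ = δ l := by
          field_simp
  refine ⟨c' 0, fun i => c' i.succ, hc'O 0, fun i => hc'O _, ?_⟩
  set Δ : Fin (n + 1) → K := fun j =>
    aeval x (d j) - ∑ i : Fin k, c' i.succ * E i (x j) - c' 0 * x j with hΔ
  -- the transfer formula with the error term
  have key : ∀ (m : ℕ) (Q : MvPolynomial (Fin (n + 1)) ℂ), Q.IsHomogeneous m →
      aeval x (mkDerivation ℂ d Q) = ∑ j, aeval x (pderiv j Q) * Δ j +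
        (∑ i : Fin k, c' i.succ * E i (aeval x Q) + (m : K) * c' 0 * aeval x Q) := by
    intro m Q hQ
    have h1 : (m : K) * aeval x Q = ∑ j, x j * aeval x (pderiv j Q) := by
      have h2 := congrArg (aeval x) hQ.sum_X_mul_pderiv
      rw [map_sum, map_nsmul, nsmul_eq_mul] at h2
      rw [← h2]
      exact Finset.sum_congr rfl fun j _ => by rw [map_mul, aeval_X]
    have h3 : ∀ i, E i (aeval x Q) = ∑ j, aeval x (pderiv j Q) * E i (x j) :=
      fun i => der_aeval x (E i) Q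
    rw [mkDer_eq, map_sum]
    have h4 : (m : K) * c' 0 * aeval x Q = ∑ j, aeval x (pderiv j Q) * (c' 0 * x j) := by
      rw [mul_comm (m : K), mul_assoc, h1, Finset.mul_sum]
      exact Finset.sum_congr rfl fun j _ => by ring
    have h5 : ∑ i : Fin k, c' i.succ * E i (aeval x Q) =
        ∑ j, aeval x (pderiv j Q) * ∑ i : Fin k, c' i.succ * E i (x j) := by
      simp only [h3, Finset.mul_sum]
      rw [Finset.sum_comm]
      refine Finset.sum_congr rfl fun j _ => Finset.sum_congr rfl fun i _ => by ring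
    rw [h4, h5, ← Finset.sum_add_distrib, ← Finset.sum_add_distrib]
    refine Finset.sum_congr rfl fun j _ => ?_
    rw [map_mul, hΔ]
    ring
  have hΔw : ∀ l, Δ (w l) = 0 := by
    intro l
    have h1 := hc'W l
    rw [Fin.sum_univ_succ] at h1
    have h2 : W 0 l = x (w l) := wrM_zero _ _ _
    have h3 : ∀ i : Fin k, W i.succ l = E i (x (w l)) := fun i => wrM_succ _ _ _ _
    rw [h2] at h1
    simp only [h3] at h1
    show aeval x (d (w l)) - ∑ i : Fin k, c' i.succ * E i (x (w l)) - c' 0 * x (w l) = 0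
    have h4 : δ l = aeval x (d (w l)) := rfl
    rw [← h4, ← h1]
    ring
  have hΔ0 : ∀ j, Δ j = 0 := by
    intro j
    by_cases hj : j ∈ Set.range w
    · obtain ⟨l, rfl⟩ := hj
      exact hΔw l
    obtain ⟨g, F, hF, hFq, hjF, hlF⟩ := hrel j hj
    have h1 := key g F hF
    rw [aeval_of_mem hqh x hxq _ (hd F hFq), aeval_of_mem hqh x hxq _ hFq, mul_zero, add_zero] at h1
    simp only [map_zero, mul_zero, Finset.sum_const_zero, add_zero] at h1
    rw [Finset.sum_eq_single j] at h1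
    · rcases mul_eq_zero.1 h1.symm with h2 | h2
      · exact absurd ((hxq _ _ hF.pderiv).1 h2) hjF
      · exact h2
    · intro l _ hlj
      by_cases hl : l ∈ Set.range w
      · obtain ⟨l', rfl⟩ := hl
        rw [hΔw, mul_zero]
      · rw [hlF l hlj hl, map_zero, zero_mul]
    · intro h
      exact absurd (Finset.mem_univ j) h
  intro m Q hQ
  rw [key m Q hQ]
  simp only [hΔ0, mul_zero, Finset.sum_const_zero, zero_add]

/-- PIECE YB-6 (second part). Proof.  Suppose `2 ≤ v (Q(x))`.  `𝔓` from `place_ideal`, `q ≤ 𝔓` (components),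
`Tr 𝔓 k` (`place_tr`), `Q ∈ 𝔓`, so `𝔓` is a minimal prime of `q ⊔ (Q)` (`min_of_tr` in Red.lean); `RedOn` gives `s ∉ 𝔓`;
`der_point`, `der_homog` give a homogeneous derivation `d` which preserves `q` with `dQ ∉ 𝔓`; `dQ` is a form (`mkDer_hom` in
Good.lean).  By `y_transfer` `(dQ)(x) = ∑ c_i E_i(Q(x)) + m c₀ Q(x)`, and `Q(x) = t ^ 2 u`, `E_i (t ^ 2 u) ∈ t O`: so
`(dQ)(x)` is `0` or has order `≥ 1`: `dQ ∈ 𝔓`, a contradiction. -/
theorem y_key {K : Type} [Field K] [Algebra ℂ K] {O : ValuationSubring K}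
    (hO : IsPlace O) {v : K → ℤ} (hv : IsOrd O v) {n k : ℕ}
    {q : Ideal (MvPolynomial (Fin (n + 1)) ℂ)} (hq : q.IsPrime) (hqh : HomI q)
    (w : Fin (k + 1) → Fin (n + 1)) (h2 : ¬ Tr q (k + 2))
    (hw : ∀ R : MvPolynomial (Fin (k + 1)) ℂ, rename w R ∈ q → R = 0)
    (hrel : ∀ j, j ∉ Set.range w → ∃ (g : ℕ) (F : MvPolynomial (Fin (n + 1)) ℂ),
      F.IsHomogeneous g ∧ F ∈ q ∧ pderiv j F ∉ q ∧
      ∀ l, l ≠ j → l ∉ Set.range w → pderiv l F = 0)
    (x : Fin (n + 1) → K) (hx : ∀ j, x j ∈ O)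
    (hxq : ∀ (d : ℕ) (Q : MvPolynomial (Fin (n + 1)) ℂ), Q.IsHomogeneous d →
      (aeval x Q = 0 ↔ Q ∈ q))
    (E : Fin k → Derivation ℂ K K) (hE : ∀ i, ∀ a ∈ O, E i a ∈ O)
    (hdet : (wrM (fun l => x (w l)) E).det ≠ 0) (hv0 : v (wrM (fun l => x (w l)) E).det = 0)
    (m : ℕ) (Q : MvPolynomial (Fin (n + 1)) ℂ) (hQ : Q.IsHomogeneous m) (hred : RedOn q Q) :
    v (aeval x Q) ≤ 1 := by
  by_contra hcon
  push Not at hcon
  obtain ⟨t, ht0, hvt⟩ := hv.2.2
  have htO : t ∈ O := by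
    rw [hv.2.1 t ht0, hvt]
    norm_num
  have hQ0 : aeval x Q ≠ 0 := fun h => hred.1 ((hxq m Q hQ).1 h)
  obtain ⟨𝔓, h𝔓p, h𝔓h, h𝔓⟩ := place_ideal hO hv x hx
  have hq𝔓 : q ≤ 𝔓 := by
    intro G hG
    rw [← sum_homogeneousComponent G]
    exact Ideal.sum_mem _ fun i _ => (h𝔓 i _ (homogeneousComponent_isHomogeneous i G)).2
      (Or.inl ((hxq i _ (homogeneousComponent_isHomogeneous i G)).2 (hqh G hG i)))
  have hnd : ∀ (d : ℕ) (R : MvPolynomial (Fin (k + 1)) ℂ), R.IsHomogeneous d →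
      aeval (fun l => x (w l)) R = 0 → R = 0 := by
    intro d R hR h0
    apply hw
    rw [← hxq d _ (hR.rename_isHomogeneous (f := w)), aeval_rename]
    exact h0
  have htr : Tr 𝔓 k := place_tr hO hv w x hx hnd E hE hdet hv0 𝔓 h𝔓h h𝔓
  have hQ𝔓 : Q ∈ 𝔓 := (h𝔓 m Q hQ).2 (Or.inr (by omega))
  obtain ⟨s, hs, hs2⟩ := hred.2 𝔓 (min_of_tr hq h2 Q hred.1 𝔓 h𝔓p hq𝔓 hQ𝔓 htr)
  obtain ⟨d, hd, hdQ⟩ := der_point hq h𝔓p hq𝔓 h2 htr Q s hred.1 hQ𝔓 hs hs2
  obtain ⟨δ, d', hd', hdq, hdQ'⟩ := der_homog hqh Q d hd hdQ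
  obtain ⟨c₀, c, hc₀, hc, hform⟩ := y_transfer hO hv hqh w hrel x hx hxq E hE hdet hv0 d' hdq
  set u := aeval x Q / t ^ 2 with hu
  have huO : u ∈ O := by
    rw [hu, hv.2.1 _ (div_ne_zero hQ0 (pow_ne_zero _ ht0)), div_eq_mul_inv,
      hv.1 _ _ hQ0 (inv_ne_zero (pow_ne_zero _ ht0)), F_ord_inv hv _ (pow_ne_zero _ ht0),
      F_ord_pow hv t ht0, hvt]
    push_cast
    omega
  have hQt : aeval x Q = t * (t * u) := by
    rw [hu]
    field_simp
  have hval : aeval x (mkDerivation ℂ d' Q) / t ∈ O := by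
    have h1 : aeval x (mkDerivation ℂ d' Q) / t =
        ∑ i, c i * (t * E i u + 2 * u * E i t) + (m : K) * c₀ * (t * u) := by
      rw [hform m Q hQ, div_eq_iff ht0, add_mul, Finset.sum_mul, hQt]
      congr 1
      · refine Finset.sum_congr rfl fun i _ => ?_
        rw [Derivation.leibniz, Derivation.leibniz]
        simp only [smul_eq_mul]
        ring
      · ring
    rw [h1]
    refine O.add_mem _ _ (sum_mem fun i _ => O.mul_mem _ _ (hc i) (O.add_mem _ _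
      (O.mul_mem _ _ htO (hE i u huO)) (O.mul_mem _ _ (O.mul_mem _ _ ?_ huO) (hE i t htO))))
      (O.mul_mem _ _ (O.mul_mem _ _ (natCast_mem O m) hc₀) (O.mul_mem _ _ htO huO))
    exact_mod_cast natCast_mem O 2
  apply hdQ'
  rw [h𝔓 _ _ (mkDer_hom d' hd' Q hQ)]
  by_cases h0 : aeval x (mkDerivation ℂ d' Q) = 0
  · exact Or.inl h0
  · right
    rw [hv.2.1 _ (div_ne_zero h0 ht0), div_eq_mul_inv, hv.1 _ _ h0 (inv_ne_zero ht0),
      F_ord_inv hv t ht0, hvt] at hval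
    omega

end Pool.Agent.YB
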