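import Pool.Agent.Lib_MP_1209e6_yb.YSpan

/-! Piece YB-3: bounded relations. -/

set_option autoImplicit false

namespace Pool.Agent.YB
open MvPolynomial Pool.Agent.QY

/-- The exponent with entries `t l` at `l + 1` and total degree `D` (if possible). -/
noncomputable def yrMon {k : ℕ} (D : ℕ) {N : ℕ} (t : Fin k → Fin N) : Fin (k + 1) →₀ ℕ :=
  Finsupp.equivFunOnFinite.symm (Fin.cons (D - ∑ l, (t l : ℕ)) (fun l => (t l : ℕ)))

theorem yrMon_zero {k : ℕ} (D : ℕ) {N : ℕ} (t : Fin k → Fin N) :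
    yrMon D t 0 = D - ∑ l, (t l : ℕ) := rfl

theorem yrMon_succ {k : ℕ} (D : ℕ) {N : ℕ} (t : Fin k → Fin N) (l : Fin k) :
    yrMon D t l.succ = (t l : ℕ) := rfl

theorem yrMon_inj {k : ℕ} (D : ℕ) {N : ℕ} (t t' : Fin k → Fin N) (h : yrMon D t = yrMon D t') :
    t = t' := by
  funext l
  apply Fin.ext
  rw [← yrMon_succ D t l, ← yrMon_succ D t' l, h]

theorem yrMon_degree {k : ℕ} (D : ℕ) {N : ℕ} (t : Fin k → Fin N) (h : ∑ l, (t l : ℕ) ≤ D) :
    (yrMon D t).degree = D := by
  rw [Finsupp.degree_eq_sum, Fin.sum_univ_succ, yrMon_zero]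
  simp only [yrMon_succ]
  omega

theorem yr_expand {k D N : ℕ} {F : MvPolynomial (Fin (k + 1)) ℂ} (hF : F.IsHomogeneous D)
    (hDN : D < N) :
    F = ∑ t : Fin k → Fin N, monomial (yrMon D t) (coeff (yrMon D t) F) := by
  classical
  ext μ
  rw [coeff_sum]
  simp only [coeff_monomial]
  by_cases h : coeff μ F = 0
  · rw [h]
    symm
    apply Finset.sum_eq_zero
    intro t _
    split_ifs with h1
    · rw [h1, h]
    · rfl
  · have hdeg : μ.degree = D := by
      by_contra hne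
      exact h (hF.coeff_eq_zero hne)
    have hsum : μ 0 + ∑ l : Fin k, μ l.succ = D := by
      rw [← hdeg, Finsupp.degree_eq_sum, Fin.sum_univ_succ]
    have hle : ∀ l : Fin k, μ l.succ ≤ D := by
      intro l
      have := Finset.single_le_sum (f := fun l : Fin k => μ l.succ) (fun i _ => Nat.zero_le _)
        (Finset.mem_univ l)
      omega
    let t : Fin k → Fin N := fun l => ⟨μ l.succ, lt_of_le_of_lt (hle l) hDN⟩
    have ht : yrMon D t = μ := by
      ext l
      refine Fin.cases ?_ (fun l => ?_) l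
      · rw [yrMon_zero]
        have : ∑ l, ((t l : Fin N) : ℕ) = ∑ l : Fin k, μ l.succ := rfl
        rw [this]
        omega
      · rw [yrMon_succ]
    rw [Finset.sum_eq_single t]
    · rw [if_pos ht, ht]
    · intro t' _ hne
      rw [if_neg]
      intro h2
      apply hne
      exact yrMon_inj D t' t (by rw [h2, ht])
    · intro h2
      exact absurd (Finset.mem_univ t) h2

theorem yr_kernel {ι κ : Type} [Fintype ι] [Fintype κ] (h : Fintype.card κ < Fintype.card ι)
    (u : ι → κ → ℂ) : ∃ c : ι → ℂ, c ≠ 0 ∧ ∀ x, ∑ i, c i * u i x = 0 := by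
  classical
  let f : (ι → ℂ) →ₗ[ℂ] (κ → ℂ) := Matrix.mulVecLin (Matrix.of fun x i => u i x)
  have h1 : LinearMap.ker f ≠ ⊥ := by
    apply LinearMap.ker_ne_bot_of_finrank_lt
    simpa using h
  obtain ⟨c, hc, hc0⟩ := (Submodule.ne_bot_iff _).1 h1
  refine ⟨c, hc0, fun x => ?_⟩
  have h2 := congrFun (LinearMap.mem_ker.1 hc) x
  simp only [f, Matrix.mulVecLin_apply, Matrix.mulVec, dotProduct, Matrix.of_apply,
    Pi.zero_apply] at h2
  rw [← h2]
  exact Finset.sum_congr rfl fun i _ => mul_comm _ _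

/-- PIECE YB-3. Every form of degree `d` satisfies a relation over the `w` of bounded degree.
Proof.  Counting, with `y_span` (`G`, `γ`, `B`).  Let `m = (k + d) s`.  The products `w ^ μ * Q ^ i` with `μ_1, …, μ_k ≤ s`,
`i ≤ s` and `|μ| + d i = m` (`μ_0` is determined) are `(s + 1) ^ (k + 1)` forms of degree `m`.  Multiply them by `G ^ m`: by
`y_span` they lie modulo `q` in the span of the `w ^ μ * X ^ β`, `|μ| + |β| = m (1 + γ)`, of dimension at most
`(B + 1) ^ (n + 1) * (m (1 + γ) + 1) ^ k` (`μ_0` is determined).  For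
`s + 1 > (B + 1) ^ (n + 1) * ((k + d) (1 + γ) + 1) ^ k` the number is larger than the dimension, so some
nontrivial combination `∑ c_(μ, i) G ^ m w ^ μ Q ^ i` lies in `q`, and `G(w) ∉ q` (`hw`), `q` prime: `∑ b_i(w) Q ^ i ∈ q`,
`b_i = ∑_μ c_(μ, i) w ^ μ` homogeneous of degree `m - d i`, not all zero.  Divide by the power `Q ^ (i₁)`, `i₁` the least `i`
with `b_i ≠ 0` (`Q ∉ q`).  Take `b i = 0` for `i > s`.  The constant is `m`. -/
theorem y_rel {n k : ℕ} {q : Ideal (MvPolynomial (Fin (n + 1)) ℂ)} (hq : q.IsPrime)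
    (w : Fin (k + 1) → Fin (n + 1))
    (hw : ∀ R : MvPolynomial (Fin (k + 1)) ℂ, rename w R ∈ q → R = 0)
    (hrel : ∀ j, j ∉ Set.range w → ∃ (r g : ℕ) (a : ℕ → MvPolynomial (Fin (k + 1)) ℂ), 1 ≤ r ∧
      r ≤ g ∧ (∀ i ≤ r, (a i).IsHomogeneous (g - i)) ∧ a r ≠ 0 ∧
      ∑ i ∈ Finset.range (r + 1), rename w (a i) * X j ^ i ∈ q) (d : ℕ) (hd : 1 ≤ d) :
    ∃ C₁ : ℕ, ∀ Q : MvPolynomial (Fin (n + 1)) ℂ, Q.IsHomogeneous d → Q ∉ q →
      ∃ (g : ℕ) (b : ℕ → MvPolynomial (Fin (k + 1)) ℂ), g ≤ C₁ ∧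
        (∀ i, d * i ≤ g → (b i).IsHomogeneous (g - d * i)) ∧ b 0 ≠ 0 ∧
        ∑ i ∈ Finset.range (g / d + 1), rename w (b i) * Q ^ i ∈ q := by
  classical
  obtain ⟨B, γ, G, hG, hG0, hspan⟩ := y_span w hrel
  set s : ℕ := (B + 1) ^ (n + 1) * ((k + d) * (1 + γ) + 1) ^ k with hs
  set m : ℕ := (k + d) * s with hm
  refine ⟨m, fun Q hQ hQq => ?_⟩
  -- the exponents
  have hsum : ∀ t : Fin k → Fin (s + 1), ∑ l, (t l : ℕ) ≤ k * s := by
    intro t
    calc ∑ l, (t l : ℕ) ≤ ∑ _l : Fin k, s := Finset.sum_le_sum fun l _ => by omega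
      _ = k * s := by simp
  have hmi : ∀ (t : Fin k → Fin (s + 1)) (i : Fin (s + 1)),
      ∑ l, (t l : ℕ) ≤ m - d * i ∧ d * (i : ℕ) ≤ m := by
    intro t i
    have h1 := hsum t
    have h2 : d * (i : ℕ) ≤ d * s := Nat.mul_le_mul_left d (by omega)
    have h3 : m = k * s + d * s := by rw [hm]; ring
    constructor <;> omega
  have hform : ∀ p : (Fin k → Fin (s + 1)) × Fin (s + 1),
      (rename w (monomial (yrMon (m - d * (p.2 : ℕ)) p.1) (1 : ℂ)) * Q ^ (p.2 : ℕ)).IsHomogeneous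
        m := by
    intro p
    obtain ⟨h1, h2⟩ := hmi p.1 p.2
    have h3 : (monomial (yrMon (m - d * (p.2 : ℕ)) p.1) (1 : ℂ)).IsHomogeneous
        (m - d * (p.2 : ℕ)) := isHomogeneous_monomial _ (yrMon_degree _ _ h1)
    have h4 := (h3.rename_isHomogeneous (f := w)).mul (hQ.pow (p.2 : ℕ))
    rwa [Nat.sub_add_cancel h2] at h4
  -- coordinates
  have hcoord : ∀ p : (Fin k → Fin (s + 1)) × Fin (s + 1),
      ∃ u : (Fin (n + 1) → Fin (B + 1)) × (Fin k → Fin (m * (1 + γ) + 1)) → ℂ,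
        rename w G ^ m *
          (rename w (monomial (yrMon (m - d * (p.2 : ℕ)) p.1) (1 : ℂ)) * Q ^ (p.2 : ℕ)) -
        ∑ x, C (u x) * (rename w (monomial (yrMon (m * (1 + γ) - ∑ j, (x.1 j : ℕ)) x.2) (1 : ℂ)) *
          ∏ j, X j ^ (x.1 j : ℕ)) ∈ q := by
    intro p
    obtain ⟨c, hc, hcq⟩ := hspan m _ (hform p)
    refine ⟨fun x => coeff (yrMon (m * (1 + γ) - ∑ j, (x.1 j : ℕ)) x.2) (c x.1), ?_⟩
    have key : ∑ x : (Fin (n + 1) → Fin (B + 1)) × (Fin k → Fin (m * (1 + γ) + 1)),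
        C (coeff (yrMon (m * (1 + γ) - ∑ j, (x.1 j : ℕ)) x.2) (c x.1)) *
          (rename w (monomial (yrMon (m * (1 + γ) - ∑ j, (x.1 j : ℕ)) x.2) (1 : ℂ)) *
          ∏ j, X j ^ (x.1 j : ℕ)) =
        ∑ β, rename w (c β) * ∏ j, (X j : MvPolynomial (Fin (n + 1)) ℂ) ^ (β j : ℕ) := by
      rw [Fintype.sum_prod_type]
      refine Finset.sum_congr rfl fun β _ => ?_
      have hexp : c β = ∑ t : Fin k → Fin (m * (1 + γ) + 1),
          monomial (yrMon (m * (1 + γ) - ∑ j, (β j : ℕ)) t)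
            (coeff (yrMon (m * (1 + γ) - ∑ j, (β j : ℕ)) t) (c β)) := by
        rcases hc β with h | h
        · exact yr_expand h.2 (by omega)
        · rw [h]
          simp
      conv_rhs => rw [hexp]
      rw [map_sum, Finset.sum_mul]
      refine Finset.sum_congr rfl fun t _ => ?_
      rw [← mul_assoc]
      congr 1
      rw [rename_monomial, rename_monomial, C_mul_monomial, mul_one]
    rw [key]
    exact hcq
  choose u hu using hcoord
  have hcard : Fintype.card ((Fin (n + 1) → Fin (B + 1)) × (Fin k → Fin (m * (1 + γ) + 1))) <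
      Fintype.card ((Fin k → Fin (s + 1)) × Fin (s + 1)) := by
    simp only [Fintype.card_prod, Fintype.card_fun, Fintype.card_fin]
    have h1 : m * (1 + γ) + 1 ≤ ((k + d) * (1 + γ) + 1) * (s + 1) := by
      rw [hm]
      nlinarith [Nat.zero_le ((k + d) * (1 + γ)), Nat.zero_le s]
    calc (B + 1) ^ (n + 1) * (m * (1 + γ) + 1) ^ k
        ≤ (B + 1) ^ (n + 1) * (((k + d) * (1 + γ) + 1) * (s + 1)) ^ k :=
          Nat.mul_le_mul_left _ (Nat.pow_le_pow_left h1 k)
      _ = s * (s + 1) ^ k := by rw [mul_pow, hs]; ring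
      _ < (s + 1) ^ k * (s + 1) := by
          have : 0 < (s + 1) ^ k := by positivity
          nlinarith
  obtain ⟨c, hc0, hc⟩ := yr_kernel hcard u
  -- the relation
  set b' : ℕ → MvPolynomial (Fin (k + 1)) ℂ := fun i =>
    if h : i < s + 1 then ∑ t : Fin k → Fin (s + 1),
      monomial (yrMon (m - d * i) t) (c (t, ⟨i, h⟩)) else 0 with hb'
  have hb'h : ∀ i, (b' i).IsHomogeneous (m - d * i) := by
    intro i
    simp only [hb']
    split_ifs with h
    · refine IsHomogeneous.sum _ _ _ fun t _ => ?_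
      exact isHomogeneous_monomial _ (yrMon_degree _ _ (hmi t ⟨i, h⟩).1)
    · exact isHomogeneous_zero _ _ _
  have hrel' : ∑ i ∈ Finset.range (s + 1), rename w (b' i) * Q ^ i ∈ q := by
    have h1 : rename w G ^ m * ∑ i ∈ Finset.range (s + 1), rename w (b' i) * Q ^ i =
        ∑ p : (Fin k → Fin (s + 1)) × Fin (s + 1), C (c p) * (rename w G ^ m *
          (rename w (monomial (yrMon (m - d * (p.2 : ℕ)) p.1) (1 : ℂ)) * Q ^ (p.2 : ℕ)) -
        ∑ x, C (u p x) * (rename w (monomial (yrMon (m * (1 + γ) - ∑ j, (x.1 j : ℕ)) x.2)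
          (1 : ℂ)) * ∏ j, X j ^ (x.1 j : ℕ))) := by
      have h2 : ∑ p : (Fin k → Fin (s + 1)) × Fin (s + 1), C (c p) *
          ∑ x, C (u p x) * (rename w (monomial (yrMon (m * (1 + γ) - ∑ j, (x.1 j : ℕ)) x.2)
          (1 : ℂ)) * ∏ j, X j ^ (x.1 j : ℕ)) = (0 : MvPolynomial (Fin (n + 1)) ℂ) := by
        simp only [Finset.mul_sum]
        rw [Finset.sum_comm]
        apply Finset.sum_eq_zero
        intro x _
        have h3 := hc x
        have h4 : ∑ p : (Fin k → Fin (s + 1)) × Fin (s + 1), C (c p) *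
            (C (u p x) * (rename w (monomial (yrMon (m * (1 + γ) - ∑ j, (x.1 j : ℕ)) x.2)
            (1 : ℂ)) * ∏ j, X j ^ (x.1 j : ℕ))) =
            C (∑ p, c p * u p x) * (rename w (monomial (yrMon (m * (1 + γ) -
              ∑ j, (x.1 j : ℕ)) x.2) (1 : ℂ)) * ∏ j, X j ^ (x.1 j : ℕ)) := by
          rw [map_sum, Finset.sum_mul]
          refine Finset.sum_congr rfl fun p _ => ?_
          rw [C_mul]
          exact (mul_assoc (C (c p)) (C (u p x)) _).symm
        rw [h4, h3, map_zero, zero_mul]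
      simp only [mul_sub, Finset.sum_sub_distrib]
      rw [h2, sub_zero, Fintype.sum_prod_type_right, Finset.mul_sum, Finset.sum_range]
      refine Finset.sum_congr rfl fun i _ => ?_
      have h5 : b' (i : ℕ) = ∑ t : Fin k → Fin (s + 1),
          monomial (yrMon (m - d * (i : ℕ)) t) (c (t, i)) := by
        simp only [hb']
        rw [dif_pos i.isLt]
      rw [h5, map_sum, Finset.sum_mul, Finset.mul_sum]
      refine Finset.sum_congr rfl fun t _ => ?_
      have h6 : rename w (monomial (yrMon (m - d * (i : ℕ)) t) (c (t, i))) =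
          C (c (t, i)) * rename w (monomial (yrMon (m - d * (i : ℕ)) t) (1 : ℂ)) := by
        rw [rename_monomial, rename_monomial, C_mul_monomial, mul_one]
      rw [h6]
      ring
    have h7 : rename w G ^ m * ∑ i ∈ Finset.range (s + 1), rename w (b' i) * Q ^ i ∈ q := by
      rw [h1]
      exact Ideal.sum_mem _ fun p _ => Ideal.mul_mem_left _ _ (hu p)
    rcases hq.mem_or_mem h7 with h8 | h8
    · exact absurd (hw G (hq.mem_of_pow_mem _ h8)) hG0
    · exact h8
  have hne : ∃ i, i < s + 1 ∧ b' i ≠ 0 := by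
    by_contra hcon
    push_neg at hcon
    apply hc0
    funext p
    obtain ⟨t, i⟩ := p
    have h1 := hcon i i.isLt
    simp only [hb'] at h1
    rw [dif_pos i.isLt] at h1
    have h2 := congrArg (coeff (yrMon (m - d * (i : ℕ)) t)) h1
    rw [coeff_sum, coeff_zero, Finset.sum_eq_single t] at h2
    · rw [coeff_monomial, if_pos rfl] at h2
      exact h2
    · intro t' _ hne'
      rw [coeff_monomial, if_neg]
      exact fun h3 => hne' (yrMon_inj _ _ _ h3)
    · intro h3
      exact absurd (Finset.mem_univ t) h3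
  -- divide
  obtain ⟨hi1, hi2⟩ := Nat.find_spec hne
  have hmin : ∀ i, i < Nat.find hne → b' i = 0 := by
    intro i hi
    have := Nat.find_min hne hi
    push_neg at this
    exact this (by omega)
  set i₁ := Nat.find hne with hi₁
  have hbig : ∀ i, s + 1 ≤ i → b' i = 0 := by
    intro i hi
    simp only [hb']
    rw [dif_neg (by omega)]
  have hdi : d * i₁ ≤ m := (hmi (fun _ => 0) ⟨i₁, hi1⟩).2
  refine ⟨m - d * i₁, fun i => b' (i₁ + i), Nat.sub_le _ _, ?_, hi2, ?_⟩
  · intro i _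
    have h1 := hb'h (i₁ + i)
    have h2 : m - d * (i₁ + i) = m - d * i₁ - d * i := by
      rw [Nat.mul_add]
      omega
    rwa [h2] at h1
  · have h1 : ∑ i ∈ Finset.range (s + 1), rename w (b' i) * Q ^ i =
        Q ^ i₁ * ∑ i ∈ Finset.range (s + 1 - i₁), rename w (b' (i₁ + i)) * Q ^ i := by
      rw [Finset.mul_sum]
      have h2 : s + 1 = i₁ + (s + 1 - i₁) := by omega
      conv_lhs => rw [h2, Finset.sum_range_add]
      have h3 : ∑ i ∈ Finset.range i₁, rename w (b' i) * Q ^ i = 0 := by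
        apply Finset.sum_eq_zero
        intro i hi
        rw [hmin i (Finset.mem_range.1 hi), map_zero, zero_mul]
      rw [h3, zero_add]
      refine Finset.sum_congr rfl fun i _ => ?_
      rw [pow_add]
      ring
    have h4 : ∑ i ∈ Finset.range ((m - d * i₁) / d + 1), rename w (b' (i₁ + i)) * Q ^ i =
        ∑ i ∈ Finset.range (s + 1 - i₁), rename w (b' (i₁ + i)) * Q ^ i := by
      symm
      apply Finset.sum_subset
      · intro i hi
        rw [Finset.mem_range] at hi ⊢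
        have h5 : i ≤ (m - d * i₁) / d := by
          rw [Nat.le_div_iff_mul_le (by omega)]
          have h6 : d * (i₁ + i) ≤ m := (hmi (fun _ => 0) ⟨i₁ + i, by omega⟩).2
          rw [Nat.mul_add] at h6
          rw [Nat.mul_comm i d]
          omega
        omega
      · intro i _ hi
        rw [Finset.mem_range, not_lt] at hi
        rw [hbig (i₁ + i) (by omega), map_zero, zero_mul]
    rw [h4]
    rw [h1] at hrel'
    rcases hq.mem_or_mem hrel' with h5 | h5
    · exact absurd (hq.mem_of_pow_mem _ h5) hQq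
    · exact h5

end Pool.Agent.YB
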