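import Pool.Agent.Lib_MP_b9fedf_td.TotG4
import Pool.Agent.Lib_MP_b9fedf_td.SpecialYL
import Pool.Agent.Lib_MP_b9fedf_tt.LevelG
import Pool.Agent.Lib_MP_b9fedf_tt.BrodyY
import Pool.Agent.Lib_MP_b9fedf_gh.SncOpen
import Pool.Agent.Lib_MP_1209e6_yb.YFinal

/-!
# Double covers and other covers ramified over the union of many general hypersurfaces

Let `Y` be a projective variety of positive dimension. Each variety `X` with a dominant rational map
to `Y` on which the union of many general hypersurface sections of `Y` is nowhere reduced (in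
particular each double or cyclic cover of `Y` branched over this union, and each variety which
dominates such a cover) is neither special nor Brody-special. The number of hypersurfaces which is
needed does not depend on their degree `d`.

The definitions (function fields, places, special function fields, Brody-special varieties) are in
`Pool.Agent.Lib_MP_1209e6_ag.Defs`, `NowhereReducedPl` is in `Pool.Agent.Lib_MP_b9fedf_tt.DefsNRP`,
`RedOn` in `Pool.Agent.Lib_MP_b9fedf_qy.DefsR`, `HomI` and `Tr` in `Pool.Agent.Lib_MP_b9fedf_qy.DefsY`,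
`Mon` and `frm` (the form with given coefficients) in `Pool.Agent.Lib_MP_b9fedf_qy.DefsV` and
`Pool.Agent.Lib_MP_b9fedf_gh.Defs`.

Sketch of the proof. `X` is not special: choose coordinates `w_0, …, w_k` of `ℙⁿ`, `k = dim Y`, which
are algebraically independent on `Y`; the form `∑ ± w_0 dw_1 ∧ … ∧ dw_k` generates a rank one sheaf
of `k`-forms with at least `k + 1` algebraically independent sections, the quotients of the forms
`w_i w_0 ^ r` by the product `P` of the members: at a place the relative order of a member is at most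
a constant times `d` times the log discrepancy `1 + β`, and if `β = 0` then the order of `P` is at
most one (the centre of the place is a divisor of `Y`, where `P` is reduced), hence zero. `X` is not
Brody-special by a second main theorem for entire curves `f` in `ℙⁿ` and general hypersurfaces in
which the zeros of `∏ b_i(f)` are counted once each (`tot_open4` in
`Pool.Agent.Lib_MP_b9fedf_td.TotG4`).
-/

set_option autoImplicit false

open Pool.Agent.Campana Pool.Agent.GGL Pool.Agent.SQ Pool.Agent.GH Pool.Agent.TT Pool.Agent.YB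
open Pool.Agent.QY Pool.Agent.TD

namespace Pool.Agent.Results.MP_1209e6_ag.BranchedCovers

/-- The function field of the projective variety with homogeneous prime ideal `P`: the field
generated by the quotients `x_i / x_j` in the fraction field of the coordinate ring. -/
noncomputable abbrev functionField {n : ℕ} (P : Ideal (MvPolynomial (Fin (n + 1)) ℂ)) [P.IsPrime] :
    IntermediateField ℂ (FractionRing (MvPolynomial (Fin (n + 1)) ℂ ⧸ P)) :=
  IntermediateField.adjoin ℂ
    (Set.range fun ij : Fin (n + 1) × Fin (n + 1) => coord P ij.1 / coord P ij.2)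

/-- Let `n ≥ 2`. There are nonzero polynomials `R d Q` with rational coefficients in the coefficients
of `Q` forms of degree `d` in `n + 1` variables, such that:

(1) For every irreducible projective variety `Y = V(q)` in `ℙⁿ` of positive dimension there is
`N = N(Y)` such that for all `d ≥ 1`, all `Q ≥ N` and all forms `b_i = frm (a i)`, `i < Q`, of degree
`d` with `R d Q (a) ≠ 0` whose product has a reduced section with `Y` (no condition if `Y = ℙⁿ`):
every projective variety `X = V(P)` with a dominant rational map `y = (y_0 : … : y_n)` to `Y` such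
that the divisor `∏ b_i = 0` is nowhere reduced on `X` (at each place the order of `∏ b_i(y)` is not
one), or such that `∏ b_i(y)` is an `e`-th power in the function field of `X` for some `e ≥ 2`,
`e ∣ Q d`, is neither special nor Brody-special.

(2) There is `N = N(n)` such that for all `d ≥ 1`, all `Q ≥ N`, all `a` with `R d Q (a) ≠ 0` and all
`e ≥ 2`, `e ∣ Q d`, every non-constant entire curve of the cyclic cover
`w ^ e x_0 ^ (Q d - e) = ∏ b_i(x)` of `ℙⁿ` lies over a member. -/
theorem result :
    ∀ n : ℕ, 2 ≤ n →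
      ∃ R : ∀ d Q : ℕ, MvPolynomial (Fin Q × Mon n d) ℚ, (∀ d Q, R d Q ≠ 0) ∧
      (∀ q : Ideal (MvPolynomial (Fin (n + 1)) ℂ), q.IsPrime → HomI q → Tr q 2 →
        ∃ N : ℕ, ∀ d : ℕ, 1 ≤ d → ∀ Q, N ≤ Q → ∀ a : Fin Q → Mon n d → ℂ,
          MvPolynomial.aeval (fun p : Fin Q × Mon n d => a p.1 p.2) (R d Q) ≠ 0 →
          (q = ⊥ ∨ RedOn q (∏ i, frm (a i))) →
          ∀ (m : ℕ) (P : Ideal (MvPolynomial (Fin (m + 1)) ℂ)) [P.IsPrime], IsVariety P →
          ∀ y : Fin (n + 1) → functionField P,
            (∀ (k : ℕ) (F : MvPolynomial (Fin (n + 1)) ℂ), F.IsHomogeneous k →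
              (MvPolynomial.aeval y F = 0 ↔ F ∈ q)) →
            (NowhereReducedPl y (∏ i, frm (a i)) ∨
              ∃ e : ℕ, 2 ≤ e ∧ e ∣ Q * d ∧ ∃ w, w ^ e = MvPolynomial.aeval y (∏ i, frm (a i))) →
            ¬ SpecialField (functionField P) ∧ ¬ BrodySpecial P) ∧
      ∃ N : ℕ, ∀ d : ℕ, 1 ≤ d → ∀ Q, N ≤ Q → ∀ a : Fin Q → Mon n d → ℂ,
        MvPolynomial.aeval (fun p : Fin Q × Mon n d => a p.1 p.2) (R d Q) ≠ 0 →
        ∀ e : ℕ, 2 ≤ e → e ∣ Q * d → ∀ f : ℂ → Fin (n + 2) → ℂ, Differentiable ℂ f →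
          (∀ z, f z ≠ 0) →
          (∀ z, f z (Fin.last (n + 1)) ^ e * f z 0 ^ (Q * d - e) =
            ∏ i, MvPolynomial.eval (fun l : Fin (n + 1) => f z l.castSucc) (frm (a i))) →
          (¬ ∀ z w, ∃ c : ℂ, f w = c • f z) →
          ∀ z, ∏ i, MvPolynomial.eval (fun l : Fin (n + 1) => f z l.castSucc) (frm (a i)) = 0 := by
  intro n hn
  have hn1 : 1 ≤ n := by omega
  obtain ⟨C, hC0, hC⟩ := tot_open4 hn1 (ε := 1 / 4) (by norm_num)
  have hC' : ∀ d Q : ℕ, ∃ S : MvPolynomial (Fin Q × Mon n d) ℚ, S ≠ 0 ∧ (1 ≤ d →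
      ∀ a : Fin Q → Mon n d → ℂ,
        MvPolynomial.aeval (fun p : Fin Q × Mon n d => a p.1 p.2) S ≠ 0 →
        Tot d (1 / 4) C (fun i => frm (a i)) ∧ Snc (fun i => frm (a i))) := by
    intro d Q
    by_cases hd : 1 ≤ d
    · obtain ⟨S, hS, hSp⟩ := hC d hd Q
      exact ⟨S, hS, fun _ => hSp⟩
    · exact ⟨1, one_ne_zero, fun h => absurd h hd⟩
  choose R hR hRp using hC'
  have hb : ∀ {d Q : ℕ} (a : Fin Q → Mon n d → ℂ) (i : Fin Q), (frm (a i)).IsHomogeneous d :=
    fun a i => frm_hom (a i)
  have hQC : ∀ {Q : ℕ}, ⌊4 * C⌋₊ + 1 ≤ Q → 4 * C < Q := fun hQ =>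
    lt_of_lt_of_le (Nat.lt_floor_add_one _) (by exact_mod_cast hQ)
  refine ⟨R, hR, ?_, ?_⟩
  · intro q hq hqh htr
    obtain ⟨N, hN⟩ := special_of_snc_yl hn1 q hq hqh htr
    refine ⟨max (⌊4 * C⌋₊ + 1) N, fun d hd Q hQ a ha hred m P _ hP y hy hor => ?_⟩
    obtain ⟨hT, hS⟩ := hRp d Q hd a ha
    have hred' : RedOn q (∏ i, frm (a i)) := by
      rcases hred with rfl | h
      · exact redOn_bot _ (squarefree_of_snc hn1 _ (hb a) hS)
      · exact h
    have hb0 : ∀ i, frm (a i) ≠ 0 := fun i => snc_ne_zero hS i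
    obtain ⟨hdeg, hhom, -⟩ := prod_degree_forms (fun i => frm (a i)) (hb a) hb0
    have hNR : NowhereReducedPl y (∏ i, frm (a i)) := by
      rcases hor with h | ⟨e, he, heQ, w, hw⟩
      · exact h
      · exact nowhere_of_power_pl he y _ (by rw [hdeg]; exact heQ)
          (fun h0 => hred'.1 ((hy _ _ hhom).1 h0)) w hw
    exact ⟨hN d hd Q ((le_max_right _ _).trans hQ) _ (hb a) hS hred' _ y hy hNR,
      brody_of_tot_y hd (fun i => frm (a i)) (hb a) hb0 hC0 (hQC ((le_max_left _ _).trans hQ)) hT
        hq hqh htr hred'.1 P hP y hy hNR⟩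
  · refine ⟨⌊4 * C⌋₊ + 1, fun d hd Q hQ a ha e he heQ f hf hf0 hfE hnc => ?_⟩
    obtain ⟨hT, hS⟩ := hRp d Q hd a ha
    exact cyclic_of_tot hd (fun i => frm (a i)) (hb a) (fun i => snc_ne_zero hS i) hC0 (hQC hQ) hT
      he heQ f hf hf0 hfE hnc

end Pool.Agent.Results.MP_1209e6_ag.BranchedCovers
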