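import Pool.Agent.Lib_MP_1209e6_mh.Orders
import Pool.Agent.Lib_MP_b9fedf_qy.TrLem

/-! Piece YB-9: orders along an entire curve. -/

set_option autoImplicit false

namespace Pool.Agent.YB
open MvPolynomial Pool.Agent.QY Pool.Agent.Campana Pool.Agent.SQ

/-- PIECE YB-9. As `curve_orders` (Lib_MP_1209e6_mh/Orders.lean).  The nonconstant element of `K`, where
`curve_orders` uses `y 1 / y 0`: `y i / y i₀` with `X i₀ ∉ q` (`tr_one`) and `X i - C α * X i₀ ∉ q` for all `α` (`tr_lin`,
TrLem.lean). -/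
theorem curve_orders_y {K : Type} [Field K] [Algebra ℂ K] (ψ : K →ₐ[ℂ] Mer) {n : ℕ}
    {q : Ideal (MvPolynomial (Fin (n + 1)) ℂ)} (htr : Tr q 2) (y : Fin (n + 1) → K)
    (hyq : ∀ (d : ℕ) (Q : MvPolynomial (Fin (n + 1)) ℂ), Q.IsHomogeneous d →
      (aeval y Q = 0 ↔ Q ∈ q)) :
    ∃ F : Fin (n + 1) → Ent,
      (∀ (D : ℕ) (Q : MvPolynomial (Fin (n + 1)) ℂ), Q.IsHomogeneous D →
        (aeval F Q = 0 ↔ Q ∈ q)) ∧
      ∀ z : ℂ, ∃ O : ValuationSubring K, IsPlace O ∧ ∃ (e : ℤ) (v : K → ℤ) (c : ℤ), 1 ≤ e ∧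
        IsOrd O v ∧ ∀ (D : ℕ) (Q : MvPolynomial (Fin (n + 1)) ℂ), Q.IsHomogeneous D → Q ∉ q →
          (eord z (aeval F Q) : ℤ) = e * v (aeval y Q) + D * c := by
  classical
  obtain ⟨H, hH⟩ := IsLocalization.exist_integer_multiples_of_finite (nonZeroDivisors Ent)
    (fun i => ψ (y i))
  choose F hF using hH
  have hH0 : (H : Ent) ≠ 0 := nonZeroDivisors.ne_zero H.2
  have hH' : algebraMap Ent Mer H ≠ 0 := by rwa [Ne, FaithfulSMul.algebraMap_eq_zero_iff]
  have hF' : ∀ i, algebraMap Ent Mer (F i) = algebraMap Ent Mer H * ψ (y i) := by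
    intro i
    rw [hF i, Algebra.smul_def]
  have hFQ : ∀ (D : ℕ) (Q : MvPolynomial (Fin (n + 1)) ℂ), Q.IsHomogeneous D →
      algebraMap Ent Mer (aeval F Q) = algebraMap Ent Mer H ^ D * ψ (aeval y Q) := by
    intro D Q hQ
    have h1 := comp_aeval_apply (R := ℂ) (f := F) (IsScalarTower.toAlgHom ℂ Ent Mer) Q
    have h2 : (fun i => (IsScalarTower.toAlgHom ℂ Ent Mer) (F i)) =
        fun i => algebraMap Ent Mer H * ψ (y i) := by
      ext i
      exact hF' i
    rw [h2, aeval_mul_hom _ _ _ _ hQ] at h1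
    have h4 := comp_aeval_apply (R := ℂ) (f := y) ψ Q
    rw [h4]
    exact h1
  -- injectivity
  have hψ : ∀ x : K, x ≠ 0 → ψ x ≠ 0 := fun x hx => (map_ne_zero_iff ψ ψ.toRingHom.injective).2 hx
  have hyM : ∀ (D : ℕ) (Q : MvPolynomial (Fin (n + 1)) ℂ), Q.IsHomogeneous D →
      (aeval F Q = 0 ↔ Q ∈ q) := by
    intro D Q hQ
    rw [← hyq D Q hQ]
    have h1 := hFQ D Q hQ
    constructor
    · intro hQF
      rw [hQF, map_zero] at h1
      have h3 := (mul_eq_zero.1 h1.symm).resolve_left (pow_ne_zero _ hH')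
      by_contra hne
      exact hψ _ hne h3
    · intro hQy
      rw [hQy, map_zero, mul_zero] at h1
      rwa [FaithfulSMul.algebraMap_eq_zero_iff] at h1
  refine ⟨F, hyM, fun z => ?_⟩
  -- the valuation
  obtain ⟨O, hO, e, v, he, hv, hev⟩ := place_of_val (K := K) (fun x => mord z (ψ x))
    (by
      intro x x' hx hx'
      simp only [map_mul]
      exact mord_mul z _ _ (hψ x hx) (hψ x' hx'))
    (by
      intro x x' hx hx' hxx
      simp only [map_add]
      refine mord_add z _ _ (hψ x hx) (hψ x' hx') ?_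
      rw [← map_add]
      exact hψ _ hxx)
    (by
      intro c hc
      simp only [AlgHom.commutes]
      exact mord_const z c hc)
    (by
      obtain ⟨i₀, hi₀⟩ := tr_one (tr_mono (le_refl q) (by norm_num) htr : Tr q 1)
      obtain ⟨i, hi⟩ := tr_lin htr (X i₀)
      have hy0 : y i₀ ≠ 0 := by
        intro h
        apply hi₀
        rw [← hyq 1 (X i₀) (isHomogeneous_X ℂ i₀), aeval_X]
        exact h
      set x := y i / y i₀ with hx
      have hxc : ∀ c : ℂ, ψ x ≠ algebraMap ℂ Mer c := by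
        intro c h
        rw [← AlgHom.commutes ψ c] at h
        have h1 : x = algebraMap ℂ K c := ψ.toRingHom.injective h
        have h2 : y i = algebraMap ℂ K c * y i₀ := by
          rw [← h1, hx, div_mul_cancel₀ _ hy0]
        apply hi c
        have h3 : (X i - C c * X i₀ : MvPolynomial (Fin (n + 1)) ℂ).IsHomogeneous 1 :=
          (isHomogeneous_X ℂ i).sub ((isHomogeneous_X ℂ i₀).C_mul c)
        rw [← hyq 1 _ h3, map_sub, map_mul, aeval_X, aeval_X, aeval_C, h2, sub_self]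
      obtain ⟨c, hc, hc'⟩ := exists_mord_ne z (ψ x) hxc
      refine ⟨x - algebraMap ℂ K c, ?_, ?_⟩
      · intro h0
        apply hc
        rw [← AlgHom.commutes ψ c, ← map_sub, h0, map_zero]
      · simp only [map_sub, AlgHom.commutes]
        exact hc')
  refine ⟨O, hO, e, v, mord z (algebraMap Ent Mer H), he, hv, fun D Q hQ hQ0 => ?_⟩
  have hQy : aeval y Q ≠ 0 := fun h => hQ0 ((hyq D Q hQ).1 h)
  have hQF : aeval F Q ≠ 0 := fun h => hQ0 ((hyM D Q hQ).1 h)
  have h3 : mord z (algebraMap Ent Mer (aeval F Q)) = eord z (aeval F Q) := by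
    have h4 := mord_div z (aeval F Q) 1 hQF one_ne_zero
    have h5 : eord z (1 : Ent) = 0 := by
      have := eord_const z 1 one_ne_zero
      rwa [map_one] at this
    rw [map_one, div_one, h5] at h4
    simpa using h4
  have hpow : ∀ D : ℕ, mord z (algebraMap Ent Mer H ^ D) = D * mord z (algebraMap Ent Mer H) := by
    intro D
    induction D with
    | zero =>
      have := mord_const z 1 one_ne_zero
      rw [map_one] at this
      simp [this]
    | succ D ih =>
      rw [pow_succ, mord_mul z _ _ (pow_ne_zero _ hH') hH', ih]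
      push_cast
      ring
  rw [← h3, hFQ D Q hQ, mord_mul z _ _ (pow_ne_zero _ hH') (hψ _ hQy), hpow, ← hev _ hQy]
  ring

end Pool.Agent.YB
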