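import Pool.Agent.Lib_MP_b9fedf_qy.DefsY
import Pool.Agent.Lib_MP_1209e6_mh.Grad

/-! Piece YB-4: the prime ideal of the centre of a place. -/

set_option autoImplicit false

namespace Pool.Agent.YB
open MvPolynomial Pool.Agent.QY Pool.Agent.Campana

/-- the constants as elements of the valuation ring -/
noncomputable def plC {K : Type} [Field K] [Algebra ℂ K] {O : ValuationSubring K}
    (hO : IsPlace O) : ℂ →+* O :=
  (algebraMap ℂ K).codRestrict O.toSubring hO.1

/-- the value of a polynomial as an element of the valuation ring -/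
noncomputable def plE {K : Type} [Field K] [Algebra ℂ K] {O : ValuationSubring K}
    (hO : IsPlace O) {n : ℕ} (x' : Fin (n + 1) → O) (Q : MvPolynomial (Fin (n + 1)) ℂ) : O :=
  Q.eval₂ (plC hO) x'

lemma plE_coe {K : Type} [Field K] [Algebra ℂ K] {O : ValuationSubring K}
    (hO : IsPlace O) {n : ℕ} (x' : Fin (n + 1) → O) (Q : MvPolynomial (Fin (n + 1)) ℂ) :
    ((plE hO x' Q : O) : K) = aeval (fun j => (x' j : K)) Q := by
  rw [plE, aeval_def]
  have h1 := MvPolynomial.eval₂_comp_left (O.subtype) (plC hO) x' Q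
  have h2 : (O.subtype).comp (plC hO) = algebraMap ℂ K := by
    ext c
    rfl
  rw [h2] at h1
  exact h1

/-- the homomorphism whose kernel is the homogeneous ideal of the centre -/
noncomputable def plT {K : Type} [Field K] [Algebra ℂ K] {O : ValuationSubring K}
    (hO : IsPlace O) {n : ℕ} (x' : Fin (n + 1) → O) :
    MvPolynomial (Fin (n + 1)) ℂ →+* Polynomial (IsLocalRing.ResidueField O) :=
  eval₂Hom (Polynomial.C.comp ((IsLocalRing.residue O).comp (plC hO)))
    (fun j => Polynomial.C (IsLocalRing.residue O (x' j)) * Polynomial.X)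

lemma plT_hom {K : Type} [Field K] [Algebra ℂ K] {O : ValuationSubring K}
    (hO : IsPlace O) {n : ℕ} (x' : Fin (n + 1) → O) (d : ℕ) (Q : MvPolynomial (Fin (n + 1)) ℂ)
    (hQ : Q.IsHomogeneous d) :
    plT hO x' Q = Polynomial.C (IsLocalRing.residue O (plE hO x' Q)) * Polynomial.X ^ d := by
  rw [plT, coe_eval₂Hom, plE, MvPolynomial.eval₂_eq', MvPolynomial.eval₂_eq', map_sum, map_sum,
    Finset.sum_mul]
  refine Finset.sum_congr rfl fun e he => ?_
  have h1 : ∑ i, e i = d := by
    have h2 := hQ (mem_support_iff.1 he)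
    rw [Finsupp.weight_apply, Finsupp.sum_fintype] at h2
    · simpa using h2
    · intro i
      simp
  simp only [RingHom.coe_comp, Function.comp_apply, map_mul, map_prod, map_pow, mul_pow,
    Finset.prod_mul_distrib, Finset.prod_pow_eq_pow_sum, h1]
  ring

lemma pl_mem {K : Type} [Field K] [Algebra ℂ K] {O : ValuationSubring K}
    {v : K → ℤ} (hv : IsOrd O v) (a : O) :
    IsLocalRing.residue O a = 0 ↔ (a : K) = 0 ∨ 1 ≤ v (a : K) := by
  rw [IsLocalRing.residue_eq_zero_iff, IsLocalRing.mem_maximalIdeal, mem_nonunits_iff]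
  have hv1 : v 1 = 0 := by
    have h := hv.1 1 1 one_ne_zero one_ne_zero
    rw [mul_one] at h
    omega
  constructor
  · intro h
    by_contra hcon
    push Not at hcon
    obtain ⟨h0, h1⟩ := hcon
    have h2 : 0 ≤ v (a : K) := (hv.2.1 _ h0).1 a.2
    have h3 : v (a : K) = 0 := by omega
    have h4 : ((a : K))⁻¹ ∈ O := by
      rw [hv.2.1 _ (inv_ne_zero h0), F_ord_inv hv _ h0, h3]
      norm_num
    apply h
    refine IsUnit.of_mul_eq_one ⟨(a : K)⁻¹, h4⟩ ?_
    ext
    exact mul_inv_cancel₀ h0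
  · intro h hu
    obtain ⟨b, hb⟩ := hu.exists_right_inv
    have hb' : (a : K) * (b : K) = 1 := by
      have := congrArg (fun z : O => (z : K)) hb
      simpa using this
    have ha0 : (a : K) ≠ 0 := left_ne_zero_of_mul_eq_one hb'
    have hb0 : (b : K) ≠ 0 := right_ne_zero_of_mul_eq_one hb'
    rcases h with h | h
    · exact ha0 h
    · have h2 := hv.1 _ _ ha0 hb0
      rw [hb', hv1] at h2
      have h3 := (hv.2.1 _ hb0).1 b.2
      omega

/-- PIECE YB-4. The homogeneous prime ideal of the centre of a place.  Proof.  `κ` the residue field of `O`,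
`θ : ℂ[X] → κ[T]`, `X j ↦ (x j mod m) T`; `𝔓 = ker θ` is prime; `θ Q = (Q(x) mod m) T ^ d` for `Q` homogeneous of degree
`d`; `HomI`: the coefficient of `T ^ d` in `θ Q` is that of `θ` of the component of degree `d`.  `a ∈ m` if and only if
`a = 0` or `1 ≤ v a` (`hv`).  (Or define `𝔓` by its elements: all components have value in `m`.) -/
theorem place_ideal {K : Type} [Field K] [Algebra ℂ K] {O : ValuationSubring K}
    (hO : IsPlace O) {v : K → ℤ} (hv : IsOrd O v) {n : ℕ} (x : Fin (n + 1) → K)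
    (hx : ∀ j, x j ∈ O) :
    ∃ 𝔓 : Ideal (MvPolynomial (Fin (n + 1)) ℂ), 𝔓.IsPrime ∧ HomI 𝔓 ∧
      ∀ (d : ℕ) (Q : MvPolynomial (Fin (n + 1)) ℂ), Q.IsHomogeneous d →
        (Q ∈ 𝔓 ↔ aeval x Q = 0 ∨ 1 ≤ v (aeval x Q)) := by
  set x' : Fin (n + 1) → O := fun j => ⟨x j, hx j⟩ with hx'
  have hval : ∀ Q, ((plE hO x' Q : O) : K) = aeval x Q := fun Q => plE_coe hO x' Q
  have hker : ∀ (d : ℕ) (Q : MvPolynomial (Fin (n + 1)) ℂ), Q.IsHomogeneous d →
      (Q ∈ RingHom.ker (plT hO x') ↔ IsLocalRing.residue O (plE hO x' Q) = 0) := by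
    intro d Q hQ
    rw [RingHom.mem_ker, plT_hom hO x' d Q hQ]
    constructor
    · intro h
      have h2 := congrArg (fun p => Polynomial.coeff p d) h
      simpa using h2
    · intro h
      rw [h, map_zero, zero_mul]
  refine ⟨RingHom.ker (plT hO x'), RingHom.ker_isPrime _, ?_, ?_⟩
  · intro s hs d
    by_cases hd : s.totalDegree < d
    · rw [homogeneousComponent_eq_zero _ _ hd]
      exact Ideal.zero_mem _
    push Not at hd
    rw [hker d _ (homogeneousComponent_isHomogeneous d s)]
    rw [RingHom.mem_ker, ← sum_homogeneousComponent s, map_sum] at hs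
    have h2 := congrArg (fun p => Polynomial.coeff p d) hs
    simp only [Polynomial.finsetSum_coeff, Polynomial.coeff_zero] at h2
    rw [Finset.sum_eq_single d] at h2
    · rw [plT_hom hO x' d _ (homogeneousComponent_isHomogeneous d s)] at h2
      simpa using h2
    · intro i _ hi
      rw [plT_hom hO x' i _ (homogeneousComponent_isHomogeneous i s)]
      rw [Polynomial.coeff_C_mul, Polynomial.coeff_X_pow, if_neg (Ne.symm hi), mul_zero]
    · intro h
      exact absurd (Finset.mem_range.2 (Nat.lt_succ_of_le hd)) h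
  · intro d Q hQ
    rw [hker d Q hQ, pl_mem hv, hval]

end Pool.Agent.YB
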