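import Pool.Agent.Lib_MP_b9fedf_qy.DefsY

/-! Piece YB-2: bounded relations. -/

set_option autoImplicit false

namespace Pool.Agent.YB
open MvPolynomial Pool.Agent.QY

/-- The forms of degree `D` which are, modulo `q`, combinations of bounded monomials. -/
def MD {n k : ℕ} (q : Ideal (MvPolynomial (Fin (n + 1)) ℂ)) (w : Fin (k + 1) → Fin (n + 1))
    (B : ℕ) (r : Fin (n + 1) → ℕ) (D : ℕ) (P : MvPolynomial (Fin (n + 1)) ℂ) : Prop :=
  ∃ c : (Fin (n + 1) → Fin (B + 1)) → MvPolynomial (Fin (k + 1)) ℂ,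
    (∀ β, ((∀ j, (β j : ℕ) < r j) ∧ ∑ j, (β j : ℕ) ≤ D ∧
      (c β).IsHomogeneous (D - ∑ j, (β j : ℕ))) ∨ c β = 0) ∧
    P - ∑ β, rename w (c β) * ∏ j, X j ^ (β j : ℕ) ∈ q

section
variable {n k : ℕ} {q : Ideal (MvPolynomial (Fin (n + 1)) ℂ)} {w : Fin (k + 1) → Fin (n + 1)}
  {B : ℕ} {r : Fin (n + 1) → ℕ} {D : ℕ}

theorem MD.congr {P P' : MvPolynomial (Fin (n + 1)) ℂ} (h : MD q w B r D P') (hP : P - P' ∈ q) :
    MD q w B r D P := by
  obtain ⟨c, h1, h2⟩ := h
  refine ⟨c, h1, ?_⟩
  have := q.add_mem hP h2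
  rwa [sub_add_sub_cancel] at this

theorem MD.zero : MD q w B r D 0 :=
  ⟨fun _ => 0, fun _ => Or.inr rfl, by simp⟩

theorem MD.add {P P' : MvPolynomial (Fin (n + 1)) ℂ} (h : MD q w B r D P)
    (h' : MD q w B r D P') : MD q w B r D (P + P') := by
  obtain ⟨c, h1, h2⟩ := h
  obtain ⟨c', h1', h2'⟩ := h'
  refine ⟨fun β => c β + c' β, fun β => ?_, ?_⟩
  · rcases h1 β with ⟨a1, a2, a3⟩ | a
    · rcases h1' β with ⟨b1, b2, b3⟩ | b
      · exact Or.inl ⟨a1, a2, a3.add b3⟩
      · refine Or.inl ⟨a1, a2, ?_⟩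
        beta_reduce
        rw [b, add_zero]
        exact a3
    · rcases h1' β with ⟨b1, b2, b3⟩ | b
      · refine Or.inl ⟨b1, b2, ?_⟩
        beta_reduce
        rw [a, zero_add]
        exact b3
      · refine Or.inr ?_
        beta_reduce
        rw [a, b, add_zero]
  · have := q.add_mem h2 h2'
    have e : P + P' - ∑ β, rename w (c β + c' β) * ∏ j, X j ^ (β j : ℕ) =
        (P - ∑ β, rename w (c β) * ∏ j, X j ^ (β j : ℕ)) +
        (P' - ∑ β, rename w (c' β) * ∏ j, X j ^ (β j : ℕ)) := by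
      simp only [map_add, add_mul, Finset.sum_add_distrib]
      ring
    rw [e]
    exact this

theorem MD.smul {P : MvPolynomial (Fin (n + 1)) ℂ} (h : MD q w B r D P) (a : ℂ) :
    MD q w B r D (C a * P) := by
  obtain ⟨c, h1, h2⟩ := h
  refine ⟨fun β => C a * c β, fun β => ?_, ?_⟩
  · rcases h1 β with ⟨a1, a2, a3⟩ | b
    · refine Or.inl ⟨a1, a2, ?_⟩
      have := (isHomogeneous_C (Fin (k + 1)) a).mul a3
      rwa [zero_add] at this
    · refine Or.inr ?_
      beta_reduce
      rw [b, mul_zero]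
  · have := q.mul_mem_left (C a) h2
    have e : C a * P - ∑ β, rename w (C a * c β) * ∏ j, X j ^ (β j : ℕ) =
        C a * (P - ∑ β, rename w (c β) * ∏ j, X j ^ (β j : ℕ)) := by
      rw [mul_sub, Finset.mul_sum]
      congr 1
      refine Finset.sum_congr rfl fun β _ => ?_
      rw [map_mul, rename_C, mul_assoc]
    rw [e]
    exact this

theorem MD.sum {ι : Type*} (s : Finset ι) (P : ι → MvPolynomial (Fin (n + 1)) ℂ)
    (h : ∀ i ∈ s, MD q w B r D (P i)) : MD q w B r D (∑ i ∈ s, P i) := by
  classical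
  induction s using Finset.induction_on with
  | empty => simpa using MD.zero
  | insert i s hi ih =>
    rw [Finset.sum_insert hi]
    exact (h i (Finset.mem_insert_self _ _)).add
      (ih fun j hj => h j (Finset.mem_insert_of_mem hj))

theorem MD.gen (hB : ∀ j, r j ≤ B) (f : MvPolynomial (Fin (k + 1)) ℂ) (d : ℕ)
    (hf : f.IsHomogeneous d) (b : Fin (n + 1) → ℕ) (hb : ∀ j, b j < r j)
    (hD : D = d + ∑ j, b j) : MD q w B r D (rename w f * ∏ j, X j ^ b j) := by
  classical
  set β : Fin (n + 1) → Fin (B + 1) := fun j => ⟨b j, by have := hb j; have := hB j; omega⟩ with hβ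
  refine ⟨fun β' => if β' = β then f else 0, fun β' => ?_, ?_⟩
  · by_cases h : β' = β
    · subst h
      refine Or.inl ⟨hb, ?_, ?_⟩
      · simp only [hβ]
        omega
      · beta_reduce
        rw [if_pos rfl]
        have : D - ∑ j, ((β j : Fin (B + 1)) : ℕ) = d := by
          simp only [hβ]
          omega
        rw [this]
        exact hf
    · exact Or.inr (if_neg h)
  · have e : ∑ β' : Fin (n + 1) → Fin (B + 1), rename w (if β' = β then f else 0) *
        ∏ j, (X j : MvPolynomial (Fin (n + 1)) ℂ) ^ (β' j : ℕ) =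
        rename w f * ∏ j, X j ^ b j := by
      rw [Finset.sum_eq_single β]
      · rw [if_pos rfl]
      · intro β' _ h
        rw [if_neg h, map_zero, zero_mul]
      · intro h
        exact absurd (Finset.mem_univ _) h
    rw [e, sub_self]
    exact q.zero_mem

theorem MD.step (hB : ∀ j, r j ≤ B) (g : Fin (n + 1) → ℕ)
    (a : Fin (n + 1) → ℕ → MvPolynomial (Fin (k + 1)) ℂ)
    (hrg : ∀ j, r j ≤ g j)
    (ha : ∀ j, ∀ i ≤ r j, (a j i).IsHomogeneous (g j - i))
    (hq : ∀ j, ∑ i ∈ Finset.range (r j + 1), rename w (a j i) * X j ^ i ∈ q)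
    {P : MvPolynomial (Fin (n + 1)) ℂ} (h : MD q w B r D P) (j : Fin (n + 1)) :
    MD q w B r (D + (1 + ∑ j, (g j - r j))) (rename w (∏ j, a j (r j)) * X j * P) := by
  classical
  obtain ⟨c, h1, h2⟩ := h
  refine MD.congr (P' := ∑ β, rename w (∏ j, a j (r j)) * X j *
    (rename w (c β) * ∏ j, X j ^ (β j : ℕ))) (MD.sum _ _ fun β _ => ?_) ?_
  swap
  · rw [← Finset.mul_sum, ← mul_sub]
    exact q.mul_mem_left _ h2
  rcases h1 β with ⟨a1, a2, a3⟩ | b
  swap
  · rw [b]
    simp only [map_zero, zero_mul, mul_zero]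
    exact MD.zero
  set d := D - ∑ j, (β j : ℕ) with hd
  -- the product of the other leading forms
  have hsplit : ∏ j, a j (r j) = a j (r j) * ∏ l ∈ Finset.univ.erase j, a l (r l) :=
    (Finset.mul_prod_erase _ _ (Finset.mem_univ j)).symm
  have hγ : ∑ l, (g l - r l) = (g j - r j) + ∑ l ∈ Finset.univ.erase j, (g l - r l) :=
    (Finset.add_sum_erase _ _ (Finset.mem_univ j)).symm
  have hG' : (∏ l ∈ Finset.univ.erase j, a l (r l)).IsHomogeneous
      (∑ l ∈ Finset.univ.erase j, (g l - r l)) :=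
    IsHomogeneous.prod _ _ _ fun l _ => ha l (r l) le_rfl
  have hG : (∏ l, a l (r l)).IsHomogeneous (∑ l, (g l - r l)) :=
    IsHomogeneous.prod _ _ _ fun l _ => ha l (r l) le_rfl
  have hX : ∀ b : Fin (n + 1) → ℕ, (∏ l, (X l : MvPolynomial (Fin (n + 1)) ℂ) ^ b l) =
      X j ^ b j * ∏ l ∈ Finset.univ.erase j, X l ^ b l := fun b =>
    (Finset.mul_prod_erase _ _ (Finset.mem_univ j)).symm
  have hS : ∀ b : Fin (n + 1) → ℕ, ∑ l, b l = b j + ∑ l ∈ Finset.univ.erase j, b l := fun b =>
    (Finset.add_sum_erase _ _ (Finset.mem_univ j)).symm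
  have hXu : ∀ i : ℕ, (∏ l ∈ Finset.univ.erase j, (X l : MvPolynomial (Fin (n + 1)) ℂ) ^
      (Function.update (fun l => (β l : ℕ)) j i l)) =
      ∏ l ∈ Finset.univ.erase j, X l ^ (β l : ℕ) := by
    intro i
    refine Finset.prod_congr rfl fun l hl => ?_
    rw [Function.update_of_ne (Finset.ne_of_mem_erase hl)]
  have hSu : ∀ i : ℕ, (∑ l ∈ Finset.univ.erase j, Function.update (fun l => (β l : ℕ)) j i l) =
      ∑ l ∈ Finset.univ.erase j, (β l : ℕ) := by
    intro i
    refine Finset.sum_congr rfl fun l hl => ?_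
    rw [Function.update_of_ne (Finset.ne_of_mem_erase hl)]
  have hSβ := hS fun l => (β l : ℕ)
  have hrj := hrg j
  have hlt := a1 j
  rcases Nat.lt_or_ge ((β j : ℕ) + 1) (r j) with hj | hj
  · -- nothing to be done
    have key := MD.gen (q := q) (w := w) (D := D + (1 + ∑ j, (g j - r j))) hB
      ((∏ j, a j (r j)) * c β) ((∑ l, (g l - r l)) + d) (hG.mul a3)
      (Function.update (fun l => (β l : ℕ)) j ((β j : ℕ) + 1)) (fun l => by
        by_cases hl : l = j
        · subst hl
          rw [Function.update_self]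
          exact hj
        · rw [Function.update_of_ne hl]
          exact a1 l) (by
        rw [hS (Function.update (fun l => (β l : ℕ)) j ((β j : ℕ) + 1)), Function.update_self, hSu]
        omega)
    rw [hX, Function.update_self, hXu] at key
    have e : rename w (∏ j, a j (r j)) * X j * (rename w (c β) * ∏ l, X l ^ (β l : ℕ)) =
        rename w ((∏ j, a j (r j)) * c β) * (X j ^ ((β j : ℕ) + 1) *
          ∏ l ∈ Finset.univ.erase j, X l ^ (β l : ℕ)) := by
      rw [hX fun l => (β l : ℕ), map_mul]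
      ring
    rw [e]
    exact key
  · -- the relation is used
    have hjr : (β j : ℕ) + 1 = r j := by omega
    refine MD.congr (P' := ∑ i ∈ Finset.range (r j), C (-1) *
      (rename w ((∏ l ∈ Finset.univ.erase j, a l (r l)) * c β * a j i) *
        ∏ l, X l ^ (Function.update (fun l => (β l : ℕ)) j i l)))
      (MD.sum _ _ fun i hi => MD.smul ?_ _) ?_
    · have hi' : i < r j := Finset.mem_range.1 hi
      refine MD.gen hB _ ((∑ l ∈ Finset.univ.erase j, (g l - r l)) + d + (g j - i))
        ((hG'.mul a3).mul (ha j i hi'.le)) _ (fun l => ?_) ?_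
      · by_cases hl : l = j
        · subst hl
          rw [Function.update_self]
          exact hi'
        · rw [Function.update_of_ne hl]
          exact a1 l
      · rw [hS (Function.update (fun l => (β l : ℕ)) j i), Function.update_self, hSu]
        omega
    · have e : rename w (∏ j, a j (r j)) * X j * (rename w (c β) * ∏ l, X l ^ (β l : ℕ)) -
          ∑ i ∈ Finset.range (r j), C (-1) *
          (rename w ((∏ l ∈ Finset.univ.erase j, a l (r l)) * c β * a j i) *
            ∏ l, X l ^ (Function.update (fun l => (β l : ℕ)) j i l)) =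
          (rename w (∏ l ∈ Finset.univ.erase j, a l (r l)) * rename w (c β) *
            ∏ l ∈ Finset.univ.erase j, X l ^ (β l : ℕ)) *
          ∑ i ∈ Finset.range (r j + 1), rename w (a j i) * X j ^ i := by
        rw [Finset.sum_range_succ, mul_add, Finset.mul_sum, hsplit, map_mul,
          hX fun l => (β l : ℕ)]
        have e2 : ∀ i ∈ Finset.range (r j), C (-1) *
            (rename w ((∏ l ∈ Finset.univ.erase j, a l (r l)) * c β * a j i) *
              ∏ l, X l ^ (Function.update (fun l => (β l : ℕ)) j i l)) =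
            - ((rename w (∏ l ∈ Finset.univ.erase j, a l (r l)) * rename w (c β) *
              ∏ l ∈ Finset.univ.erase j, X l ^ (β l : ℕ)) * (rename w (a j i) * X j ^ i)) := by
          intro i _
          rw [hX, Function.update_self, hXu, map_mul, map_mul, C_neg, C_1]
          ring
        rw [Finset.sum_congr rfl e2, Finset.sum_neg_distrib, ← hjr, pow_succ]
        ring
      rw [e]
      exact q.mul_mem_left _ (hq j)

end

/-- PIECE YB-2. For a form `G` in the `w` (product of the `a r` of the relations of the `X j`), the product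
`G ^ m * Q` of a form `Q` of degree `m` is, modulo `q`, a linear combination with complex coefficients of
the products `w ^ μ * X ^ β` with `β j ≤ B` for all `j` and `|μ| + |β| = m (1 + γ)`.
Proof.  `G = ∏_j G_j` over the `j` not in the range of `w`, `G_j = a r` of the relation of `j`, `γ = deg G`,
`B ≥` all `r`.  For a monomial `Q = X ^ α` by induction on `m`: multiply by `G * X j`; a factor `X j` with `j = w l` goes
to the part `w ^ μ`; otherwise if `β j + 1 < r` nothing is to be done (but multiply by `G`, a form in the `w`), and if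
`β j + 1 = r` use `G_j X j ^ r = - ∑_(i < r) a i (w) X j ^ i` modulo `q`, homogeneous of degree `g`. -/
theorem y_span {n k : ℕ} {q : Ideal (MvPolynomial (Fin (n + 1)) ℂ)}
    (w : Fin (k + 1) → Fin (n + 1))
    (hrel : ∀ j, j ∉ Set.range w → ∃ (r g : ℕ) (a : ℕ → MvPolynomial (Fin (k + 1)) ℂ), 1 ≤ r ∧
      r ≤ g ∧ (∀ i ≤ r, (a i).IsHomogeneous (g - i)) ∧ a r ≠ 0 ∧
      ∑ i ∈ Finset.range (r + 1), rename w (a i) * X j ^ i ∈ q) :
    ∃ (B γ : ℕ) (G : MvPolynomial (Fin (k + 1)) ℂ), G.IsHomogeneous γ ∧ G ≠ 0 ∧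
      ∀ (m : ℕ) (Q : MvPolynomial (Fin (n + 1)) ℂ), Q.IsHomogeneous m →
        ∃ c : (Fin (n + 1) → Fin (B + 1)) → MvPolynomial (Fin (k + 1)) ℂ,
          (∀ β, (∑ j, (β j : ℕ) ≤ m * (1 + γ) ∧
            (c β).IsHomogeneous (m * (1 + γ) - ∑ j, (β j : ℕ))) ∨ c β = 0) ∧
          rename w G ^ m * Q - ∑ β, rename w (c β) * ∏ j, X j ^ (β j : ℕ) ∈ q := by
  classical
  have hrel' : ∀ j, ∃ (r g : ℕ) (a : ℕ → MvPolynomial (Fin (k + 1)) ℂ), 1 ≤ r ∧
      r ≤ g ∧ (∀ i ≤ r, (a i).IsHomogeneous (g - i)) ∧ a r ≠ 0 ∧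
      ∑ i ∈ Finset.range (r + 1), rename w (a i) * X j ^ i ∈ q := by
    intro j
    by_cases hj : j ∈ Set.range w
    · obtain ⟨l, rfl⟩ := hj
      refine ⟨1, 1, fun i => if i = 0 then -X l else 1, le_rfl, le_rfl, ?_, ?_, ?_⟩
      · intro i hi
        interval_cases i
        · simpa using (isHomogeneous_X ℂ l).neg
        · simpa using isHomogeneous_one (Fin (k + 1)) ℂ
      · simp
      · simp [Finset.sum_range_succ]
    · exact hrel j hj
  choose r g a hr1 hrg ha hne hq using hrel'
  refine ⟨∑ j, r j, ∑ j, (g j - r j), ∏ j, a j (r j),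
    IsHomogeneous.prod _ _ _ fun l _ => ha l (r l) le_rfl,
    Finset.prod_ne_zero_iff.2 fun j _ => hne j, ?_⟩
  have hB : ∀ j, r j ≤ ∑ j, r j := fun j =>
    Finset.single_le_sum (fun _ _ => Nat.zero_le _) (Finset.mem_univ j)
  have hmon : ∀ (m : ℕ) (s : Fin (n + 1) →₀ ℕ), s.degree = m →
      MD q w (∑ j, r j) r (m * (1 + ∑ j, (g j - r j)))
        (rename w (∏ j, a j (r j)) ^ m * monomial s 1) := by
    intro m
    induction m with
    | zero =>
      intro s hs
      have hs0 : s = 0 := (Finsupp.degree_eq_zero_iff s).1 hs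
      have key := MD.gen (q := q) (w := w) (D := 0 * (1 + ∑ j, (g j - r j))) hB
        1 0 (isHomogeneous_one _ _) (fun _ => 0) (fun j => hr1 j) (by simp)
      simpa [hs0] using key
    | succ m ih =>
      intro s hs
      have hne0 : s ≠ 0 := by
        rintro rfl
        simp at hs
      obtain ⟨j, hj⟩ := Finsupp.ne_iff.1 hne0
      have hj' : 1 ≤ s j := Nat.one_le_iff_ne_zero.2 (by simpa using hj)
      set t : Fin (n + 1) →₀ ℕ := s - Finsupp.single j 1 with ht
      have hst : s = Finsupp.single j 1 + t := by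
        ext l
        simp only [ht, Finsupp.add_apply, Finsupp.tsub_apply, Finsupp.single_apply]
        by_cases hl : j = l
        · subst hl
          simp only [if_true]
          omega
        · simp [hl]
      have htm : t.degree = m := by
        rw [hst, map_add, Finsupp.degree_single] at hs
        omega
      have key := (ih t htm).step hB g a hrg ha hq j
      have e1 : (m + 1) * (1 + ∑ j, (g j - r j)) =
          m * (1 + ∑ j, (g j - r j)) + (1 + ∑ j, (g j - r j)) := by ring
      have e2 : rename w (∏ j, a j (r j)) ^ (m + 1) * monomial s (1 : ℂ) =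
          rename w (∏ j, a j (r j)) * X j * (rename w (∏ j, a j (r j)) ^ m * monomial t 1) := by
        have : monomial s (1 : ℂ) = X j * monomial t 1 := by
          rw [hst, X, monomial_mul, one_mul]
        rw [this]
        ring
      rw [e1, e2]
      exact key
  intro m Q hQ
  have hQm : MD q w (∑ j, r j) r (m * (1 + ∑ j, (g j - r j)))
      (rename w (∏ j, a j (r j)) ^ m * Q) := by
    have e : rename w (∏ j, a j (r j)) ^ m * Q =
        ∑ s ∈ Q.support, C (Q.coeff s) * (rename w (∏ j, a j (r j)) ^ m * monomial s 1) := by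
      conv_lhs => rw [Q.as_sum]
      rw [Finset.mul_sum]
      refine Finset.sum_congr rfl fun s _ => ?_
      have : monomial s (Q.coeff s) = C (Q.coeff s) * monomial s (1 : ℂ) := by
        rw [C_mul_monomial, mul_one]
      rw [this]
      ring
    rw [e]
    refine MD.sum _ _ fun s hs => MD.smul (hmon m s ?_) _
    have := hQ (mem_support_iff.1 hs)
    rw [← this, Finsupp.degree_eq_weight_one]
    rfl
  obtain ⟨c, h1, h2⟩ := hQm
  refine ⟨c, fun β => ?_, h2⟩
  rcases h1 β with ⟨_, a2, a3⟩ | b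
  · exact Or.inl ⟨a2, a3⟩
  · exact Or.inr b

end Pool.Agent.YB
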